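import Pool.Agent.H203R3.HC.Res

open scoped InnerProductSpace TensorProduct Topology
open Filter Polynomial

set_option linter.unusedSectionVars false

namespace H203R3.FD

variable {H : Type*} [NormedAddCommGroup H] [InnerProductSpace ℂ H] [CompleteSpace H]
variable {x : Fin 1 → H →L[ℂ] H} {Ω : H}

theorem pf_surj (P : Poly 1) : ∃ p : ℂ[X], (pf 0 p : Poly 1) = P := by
  induction P using FreeAlgebra.induction with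
  | grade0 r => exact ⟨C r, by simp [pf]⟩
  | grade1 j =>
    refine ⟨X, ?_⟩
    have : j = 0 := Subsingleton.elim _ _
    subst this
    simp [pf]
  | mul a b ha hb =>
    obtain ⟨p, rfl⟩ := ha
    obtain ⟨q, rfl⟩ := hb
    exact ⟨p * q, pf_mul 0 p q⟩
  | add a b ha hb =>
    obtain ⟨p, rfl⟩ := ha
    obtain ⟨q, rfl⟩ := hb
    exact ⟨p + q, by simp [pf]⟩

/-- one variable: the generated von Neumann algebra is commutative -/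
theorem W_comm {a b : H →L[ℂ] H} (ha : a ∈ WStar x) (hb : b ∈ WStar x) : a * b = b * a := by
  have h1 : Set.range x ⊆ Set.centralizer (Set.range x) := by
    rintro _ ⟨i, rfl⟩ _ ⟨j, rfl⟩
    have : i = j := Subsingleton.elim _ _
    subst this
    rfl
  have h2 : a ∈ Set.centralizer (Set.range x) := by
    intro y hy
    exact ha y (h1 hy)
  exact hb a h2

theorem aeval_mem (p : ℂ[X]) : aeval (x 0) p ∈ WStar x := by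
  rw [← ev_pf]; exact ev_mem_W _

/-- the basic identity for polynomials -/
theorem D1_three (a q b : ℂ[X]) : D1 x Ω 0 (a * (q * b)) =
    tm 1 (aeval (x 0) q * aeval (x 0) b) (D1 x Ω 0 a) +
    (tm (aeval (x 0) a) 1 (tm 1 (aeval (x 0) b) (D1 x Ω 0 q)) +
      tm (aeval (x 0) a * aeval (x 0) q) 1 (D1 x Ω 0 b)) := by
  rw [D1_mul, D1_mul, map_mul, map_add, ← tm_mul (aeval (x 0) a) 1 (aeval (x 0) q) 1, one_mul]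

variable {f g : H →L[ℂ] H} {ζ η : H ⊗[ℂ] H} {J : H}

/-- integration by parts for elements of the closure -/
theorem Cl.ibp (hJ : ∀ p : ℂ[X], ⟪J, aeval (x 0) p Ω⟫_ℂ = ⟪(Ω ⊗ₜ[ℂ] Ω : H ⊗[ℂ] H), D1 x Ω 0 p⟫_ℂ)
    (hf : Cl x Ω 0 f ζ) (hg : Cl x Ω 0 g η) (q : ℂ[X]) :
    ⟪(Ω ⊗ₜ[ℂ] Ω : H ⊗[ℂ] H), tm f g (D1 x Ω 0 q)⟫_ℂ =
      ⟪J, (f * (aeval (x 0) q * g)) Ω⟫_ℂ -
      ⟪(Ω ⊗ₜ[ℂ] Ω : H ⊗[ℂ] H), tm 1 (aeval (x 0) q * g) ζ⟫_ℂ -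
      ⟪(Ω ⊗ₜ[ℂ] Ω : H ⊗[ℂ] H), tm (f * aeval (x 0) q) 1 η⟫_ℂ := by
  obtain ⟨a, ha1, ha2⟩ := hf
  obtain ⟨b, hb1, hb2⟩ := hg
  set Q := aeval (x 0) q with hQ
  have e : ∀ n, ⟪(Ω ⊗ₜ[ℂ] Ω : H ⊗[ℂ] H), tm (aeval (x 0) (a n)) 1 (tm 1 (aeval (x 0) (b n)) (D1 x Ω 0 q))⟫_ℂ =
      ⟪J, (aeval (x 0) (a n) * (Q * aeval (x 0) (b n))) Ω⟫_ℂ -
      ⟪(Ω ⊗ₜ[ℂ] Ω : H ⊗[ℂ] H), tm 1 (Q * aeval (x 0) (b n)) (D1 x Ω 0 (a n))⟫_ℂ -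
      ⟪(Ω ⊗ₜ[ℂ] Ω : H ⊗[ℂ] H), tm (aeval (x 0) (a n) * Q) 1 (D1 x Ω 0 (b n))⟫_ℂ := by
    intro n
    have h1 := hJ (a n * (q * b n))
    rw [D1_three, inner_add_right, inner_add_right, map_mul, map_mul, ← hQ] at h1
    rw [h1]; ring
  have l1 : Tendsto (fun n => ⟪(Ω ⊗ₜ[ℂ] Ω : H ⊗[ℂ] H),
      tm (aeval (x 0) (a n)) 1 (tm 1 (aeval (x 0) (b n)) (D1 x Ω 0 q))⟫_ℂ) atTop
      (𝓝 ⟪(Ω ⊗ₜ[ℂ] Ω : H ⊗[ℂ] H), tm f 1 (tm 1 g (D1 x Ω 0 q))⟫_ℂ) :=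
    tendsto_inner_T _ (tendsto_tm_left ha1 (tendsto_tm_right hb1 tendsto_const_nhds))
  have l2 : Tendsto (fun n => ⟪J, (aeval (x 0) (a n) * (Q * aeval (x 0) (b n))) Ω⟫_ℂ -
      ⟪(Ω ⊗ₜ[ℂ] Ω : H ⊗[ℂ] H), tm 1 (Q * aeval (x 0) (b n)) (D1 x Ω 0 (a n))⟫_ℂ -
      ⟪(Ω ⊗ₜ[ℂ] Ω : H ⊗[ℂ] H), tm (aeval (x 0) (a n) * Q) 1 (D1 x Ω 0 (b n))⟫_ℂ) atTop
      (𝓝 (⟪J, (f * (Q * g)) Ω⟫_ℂ -
      ⟪(Ω ⊗ₜ[ℂ] Ω : H ⊗[ℂ] H), tm 1 (Q * g) ζ⟫_ℂ -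
      ⟪(Ω ⊗ₜ[ℂ] Ω : H ⊗[ℂ] H), tm (f * Q) 1 η⟫_ℂ)) := by
    refine Tendsto.sub (Tendsto.sub ?_ ?_) ?_
    · exact (tendsto_const_nhds (x := J)).inner (tendsto_ev (ha1.mul (hb1.const_mul Q)) Ω)
    · exact tendsto_inner_T _ (tendsto_tm_right (hb1.const_mul Q) ha2)
    · exact tendsto_inner_T _ (tendsto_tm_left (ha1.mul_const Q) hb2)
  simp only [e] at l1
  have := tendsto_nhds_unique l1 l2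
  rw [← this, ← tm_mul, mul_one, one_mul]

/-- partial traces against `ζ` are bounded -/
def Nice (x : Fin 1 → H →L[ℂ] H) (Ω : H) (ζ : H ⊗[ℂ] H) : Prop :=
  ∀ g ∈ WStar x, ∃ C : ℝ, 0 ≤ C ∧ ∀ q : ℂ[X],
    ‖⟪(Ω ⊗ₜ[ℂ] Ω : H ⊗[ℂ] H), tm 1 (aeval (x 0) q * g) ζ⟫_ℂ‖ ≤ C * ‖aeval (x 0) q Ω‖ ∧
    ‖⟪(Ω ⊗ₜ[ℂ] Ω : H ⊗[ℂ] H), tm (g * aeval (x 0) q) 1 ζ⟫_ℂ‖ ≤ C * ‖aeval (x 0) q Ω‖

theorem Nice.add (h1 : Nice x Ω ζ) (h2 : Nice x Ω η) : Nice x Ω (ζ + η) := by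
  intro g hg
  obtain ⟨C, hC, h⟩ := h1 g hg
  obtain ⟨D, hD, h'⟩ := h2 g hg
  refine ⟨C + D, by positivity, fun q => ⟨?_, ?_⟩⟩
  · rw [map_add, inner_add_right, add_mul]
    exact (norm_add_le _ _).trans (add_le_add (h q).1 (h' q).1)
  · rw [map_add, inner_add_right, add_mul]
    exact (norm_add_le _ _).trans (add_le_add (h q).2 (h' q).2)

theorem Nice.neg (h1 : Nice x Ω ζ) : Nice x Ω (-ζ) := by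
  intro g hg
  obtain ⟨C, hC, h⟩ := h1 g hg
  refine ⟨C, hC, fun q => ⟨?_, ?_⟩⟩
  · rw [map_neg, inner_neg_right, norm_neg]; exact (h q).1
  · rw [map_neg, inner_neg_right, norm_neg]; exact (h q).2

theorem Nice.tmul {c d : H →L[ℂ] H} (hc : c ∈ WStar x) (hd : d ∈ WStar x) :
    Nice x Ω ((c Ω) ⊗ₜ (d Ω)) := by
  intro g hg
  refine ⟨‖⟪Ω, c Ω⟫_ℂ‖ * ‖star (g * d) Ω‖ + ‖⟪Ω, d Ω⟫_ℂ‖ * ‖star (g * c) Ω‖, by positivity,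
    fun q => ?_⟩
  set Q := aeval (x 0) q with hQ
  have hQm : Q ∈ WStar x := aeval_mem q
  have key : ∀ e ∈ WStar x, ‖⟪Ω, Q ((g * e) Ω)⟫_ℂ‖ ≤ ‖star (g * e) Ω‖ * ‖Q Ω‖ := by
    intro e he
    have h1 : Q ((g * e) Ω) = (g * e) (Q Ω) := by
      rw [← mul_apply_eq_comp, ← mul_apply_eq_comp, W_comm hQm (W_mul hg he)]
    rw [h1, ← ContinuousLinearMap.adjoint_inner_left, ← ContinuousLinearMap.star_eq_adjoint]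
    exact norm_inner_le_norm _ _
  refine ⟨?_, ?_⟩
  · rw [tm_tmul, one_apply_eq_self, TensorProduct.inner_tmul, norm_mul]
    have h2 := key d hd
    have h3 : (Q * g) (d Ω) = Q ((g * d) Ω) := by simp only [mul_apply_eq_comp]
    rw [h3]
    have h4 : 0 ≤ ‖⟪Ω, d Ω⟫_ℂ‖ * ‖star (g * c) Ω‖ * ‖Q Ω‖ := by positivity
    calc ‖⟪Ω, c Ω⟫_ℂ‖ * ‖⟪Ω, Q ((g * d) Ω)⟫_ℂ‖ ≤ ‖⟪Ω, c Ω⟫_ℂ‖ * (‖star (g * d) Ω‖ * ‖Q Ω‖) := by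
          gcongr
      _ ≤ _ := by linarith
  · rw [tm_tmul, one_apply_eq_self, TensorProduct.inner_tmul, norm_mul]
    have h2 := key c hc
    have h3 : (g * Q) (c Ω) = Q ((g * c) Ω) := by
      rw [W_comm hg hQm]; simp only [mul_apply_eq_comp]
    rw [h3]
    have h4 : 0 ≤ ‖⟪Ω, c Ω⟫_ℂ‖ * ‖star (g * d) Ω‖ * ‖Q Ω‖ := by positivity
    calc ‖⟪Ω, Q ((g * c) Ω)⟫_ℂ‖ * ‖⟪Ω, d Ω⟫_ℂ‖ ≤ (‖star (g * c) Ω‖ * ‖Q Ω‖) * ‖⟪Ω, d Ω⟫_ℂ‖ := by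
          gcongr
      _ ≤ _ := by linarith

/-- boundedness of `Q ↦ ⟨f^*Ω ⊗ g^*Ω, ∂ Q⟩` -/
theorem Cl.bound
    (hJ : ∀ p : ℂ[X], ⟪J, aeval (x 0) p Ω⟫_ℂ = ⟪(Ω ⊗ₜ[ℂ] Ω : H ⊗[ℂ] H), D1 x Ω 0 p⟫_ℂ)
    (hf : Cl x Ω 0 f ζ) (hg : Cl x Ω 0 g η) (hζ : Nice x Ω ζ) (hη : Nice x Ω η) :
    ∃ C : ℝ, 0 ≤ C ∧ ∀ q : ℂ[X],
      ‖⟪((star f Ω) ⊗ₜ[ℂ] (star g Ω) : H ⊗[ℂ] H), D1 x Ω 0 q⟫_ℂ‖ ≤ C * ‖aeval (x 0) q Ω‖ := by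
  obtain ⟨C1, hC1, h1⟩ := hζ g hg.mem_W
  obtain ⟨C2, hC2, h2⟩ := hη f hf.mem_W
  refine ⟨‖J‖ * ‖f * g‖ + C1 + C2, by positivity, fun q => ?_⟩
  set Q := aeval (x 0) q with hQ
  have hQm : Q ∈ WStar x := aeval_mem q
  have e1 : ⟪((star f Ω) ⊗ₜ[ℂ] (star g Ω) : H ⊗[ℂ] H), D1 x Ω 0 q⟫_ℂ =
      ⟪(Ω ⊗ₜ[ℂ] Ω : H ⊗[ℂ] H), tm f g (D1 x Ω 0 q)⟫_ℂ := by
    have := inner_tm (star f) (star g) (Ω ⊗ₜ[ℂ] Ω : H ⊗[ℂ] H) (D1 x Ω 0 q)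
    rw [star_star, star_star, tm_tmul] at this
    exact this
  rw [e1, Cl.ibp hJ hf hg q]
  have e2 : (f * (Q * g)) Ω = (f * g) (Q Ω) := by
    rw [W_comm hQm hg.mem_W, ← mul_assoc, mul_apply_eq_comp]
  have b1 : ‖⟪J, (f * (Q * g)) Ω⟫_ℂ‖ ≤ ‖J‖ * ‖f * g‖ * ‖Q Ω‖ := by
    rw [e2]
    calc ‖⟪J, (f * g) (Q Ω)⟫_ℂ‖ ≤ ‖J‖ * ‖(f * g) (Q Ω)‖ := norm_inner_le_norm _ _
      _ ≤ ‖J‖ * (‖f * g‖ * ‖Q Ω‖) := by gcongr; exact ContinuousLinearMap.le_opNorm _ _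
      _ = _ := by ring
  calc ‖⟪J, (f * (Q * g)) Ω⟫_ℂ - ⟪(Ω ⊗ₜ[ℂ] Ω : H ⊗[ℂ] H), tm 1 (Q * g) ζ⟫_ℂ -
      ⟪(Ω ⊗ₜ[ℂ] Ω : H ⊗[ℂ] H), tm (f * Q) 1 η⟫_ℂ‖
      ≤ ‖J‖ * ‖f * g‖ * ‖Q Ω‖ + C1 * ‖Q Ω‖ + C2 * ‖Q Ω‖ :=
        (norm_sub_le _ _).trans (add_le_add ((norm_sub_le _ _).trans
          (add_le_add b1 (h1 q).1)) (h2 q).2)
    _ = _ := by ring

variable {R : H →L[ℂ] H} {ε : ℝ}

theorem RS.cl_sq (hT : IsTracialTuple x Ω) (h : RS (x 0) ε R) :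
    Cl x Ω 0 (R * R) (-((R Ω) ⊗ₜ ((R * R) Ω) + ((R * R) Ω) ⊗ₜ (R Ω))) := by
  have := (h.cl (i₀ := 0) hT).mul (h.cl (i₀ := 0) hT)
  refine (iff_of_eq (congrArg (Cl x Ω 0 (R * R)) ?_)).mp this
  rw [map_neg, map_neg, tm_tmul, tm_tmul, neg_add]
  simp only [one_apply_eq_self, mul_apply_eq_comp]

/-- the derivative of the test vector `R² Ω` -/
noncomputable def zh (Ω : H) (R : H →L[ℂ] H) : H ⊗[ℂ] H :=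
  -((R Ω) ⊗ₜ ((R * R) Ω) + ((R * R) Ω) ⊗ₜ (R Ω))

theorem norm_zh (R : H →L[ℂ] H) : ‖zh Ω R‖ ≤ 2 * ‖R Ω‖ * ‖(R * R) Ω‖ := by
  unfold zh
  rw [norm_neg]
  refine (norm_add_le _ _).trans ?_
  rw [TensorProduct.norm_tmul, TensorProduct.norm_tmul]
  exact le_of_eq (by ring)

/-- The test vectors are in the domain of the Laplacian. -/
theorem RS.lap (hT : IsTracialTuple x Ω)
    (hJ : ∀ p : ℂ[X], ⟪J, aeval (x 0) p Ω⟫_ℂ = ⟪(Ω ⊗ₜ[ℂ] Ω : H ⊗[ℂ] H), D1 x Ω 0 p⟫_ℂ)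
    (h : RS (x 0) ε R) : ∃ k : H, LapRel x Ω ((R * R) Ω) k ∧
      (⟪k, (R * R) Ω⟫_ℂ).re = ‖zh Ω R‖ ^ 2 := by
  have hX := hT.selfAdjoint 0
  have hs := h.adj hX
  have hRm : R ∈ WStar x := (h.cl (i₀ := 0) hT).mem_W
  have hsm : star R ∈ WStar x := W_star hT.selfAdjoint hRm
  have n1 : Nice x Ω (-((star R Ω) ⊗ₜ (star R Ω))) := (Nice.tmul hsm hsm).neg
  have n2 : Nice x Ω (-((star R Ω) ⊗ₜ ((star R * star R) Ω) + ((star R * star R) Ω) ⊗ₜ (star R Ω))) :=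
    ((Nice.tmul hsm (W_mul hsm hsm)).add (Nice.tmul (W_mul hsm hsm) hsm)).neg
  have c1 := hs.cl (i₀ := 0) hT
  have c2 := hs.cl_sq hT
  obtain ⟨C1, hC1, b1⟩ := Cl.bound hJ c1 c2 n1 n2
  obtain ⟨C2, hC2, b2⟩ := Cl.bound hJ c2 c1 n2 n1
  rw [star_mul, star_star] at b1 b2
  have hb : ∀ Q : Poly 1, ‖⟪zh Ω R, dV x Ω 0 Q⟫_ℂ‖ ≤ (C1 + C2) * ‖ev x Q Ω‖ := by
    intro Q
    obtain ⟨q, rfl⟩ := pf_surj Q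
    rw [← D1_apply, ev_pf]
    unfold zh
    rw [inner_neg_left, norm_neg, inner_add_left, add_mul]
    exact (norm_add_le _ _).trans (add_le_add (b1 q) (b2 q))
  obtain ⟨k, -, hk⟩ := exists_adj (x := x) (Ω := Ω) (i₀ := 0) (zh Ω R) (C1 + C2) (by positivity) hb
  obtain ⟨p, hp1, hp2⟩ := h.cl_sq hT
  change Tendsto (fun n => D1 x Ω 0 (p n)) atTop (𝓝 (zh Ω R)) at hp2
  refine ⟨k, ?_, ?_⟩
  · refine ⟨fun i => ((zh Ω R : H ⊗[ℂ] H) : HT H), fun i => k, ⟨fun j => pf 0 (p j), ?_, ?_⟩, ?_, ?_⟩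
    · have := tendsto_ev hp1 Ω
      simpa only [evV_apply, ev_pf] using this
    · intro i
      have hi : i = 0 := Subsingleton.elim _ _
      subst hi
      have : Tendsto (fun j => ((D1 x Ω 0 (p j) : H ⊗[ℂ] H) : HT H)) atTop
          (𝓝 ((zh Ω R : H ⊗[ℂ] H) : HT H)) :=
        ((UniformSpace.Completion.continuous_coe (H ⊗[ℂ] H)).tendsto _).comp hp2
      exact this
    · intro i Q
      have hi : i = 0 := Subsingleton.elim _ _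
      subst hi
      rw [hk]
      unfold dK
      rw [UniformSpace.Completion.inner_coe]
    · simp
  · have h1 : Tendsto (fun j => ⟪k, ev x (pf 0 (p j)) Ω⟫_ℂ) atTop (𝓝 ⟪k, (R * R) Ω⟫_ℂ) := by
      have := tendsto_ev hp1 Ω
      simp only [ev_pf]
      exact (tendsto_const_nhds (x := k)).inner this
    have h2 : Tendsto (fun j => ⟪zh Ω R, D1 x Ω 0 (p j)⟫_ℂ) atTop
        (𝓝 ⟪zh Ω R, zh Ω R⟫_ℂ) := tendsto_inner_T _ hp2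
    have h3 : ∀ j, ⟪k, ev x (pf 0 (p j)) Ω⟫_ℂ = ⟪zh Ω R, D1 x Ω 0 (p j)⟫_ℂ :=
      fun j => hk (pf 0 (p j))
    simp only [h3] at h1
    rw [tendsto_nhds_unique h1 h2, reST]

end H203R3.FD
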