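import Pool.Agent.H203R3.HC.NC

open scoped InnerProductSpace TensorProduct Topology
open Filter Polynomial

set_option linter.unusedSectionVars false

namespace H203R3.Lim

open H203R3.FD

variable {H : Type*} [NormedAddCommGroup H] [InnerProductSpace ℂ H] [CompleteSpace H]
variable (b : HilbertBasis ℕ ℂ H)

theorem on (i j : ℕ) : ⟪b i, b j⟫_ℂ = if i = j then 1 else 0 :=
  orthonormal_iff_ite.mp b.orthonormal i j

theorem ext_b {v w : H} (h : ∀ n, ⟪b n, v⟫_ℂ = ⟪b n, w⟫_ℂ) : v = w := by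
  apply b.repr.injective
  ext n
  rw [b.repr_apply_apply, b.repr_apply_apply, h]

theorem ext_op {A B : H →L[ℂ] H} (h : ∀ n, A (b n) = B (b n)) : A = B := by
  refine ContinuousLinearMap.ext_on (s := Set.range b) ?_ ?_
  · rw [Submodule.dense_iff_topologicalClosure_eq_top]
    exact b.dense_span
  · rintro _ ⟨n, rfl⟩
    exact h n

/-- the unilateral shift as an isometry -/
noncomputable def lI : H →ₗᵢ[ℂ] H :=
  ((b.orthonormal.comp Nat.succ Nat.succ_injective).orthogonalFamily.linearIsometry).comp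
    b.repr.toLinearIsometry

/-- the unilateral shift -/
noncomputable def l : H →L[ℂ] H := (lI b).toContinuousLinearMap

theorem l_b (n : ℕ) : l b (b n) = b (n + 1) := by
  change (lI b) (b n) = _
  unfold lI
  change ((b.orthonormal.comp Nat.succ Nat.succ_injective).orthogonalFamily.linearIsometry)
    (b.repr (b n)) = _
  classical
  rw [b.repr_self, OrthogonalFamily.linearIsometry_apply_single]
  simp

theorem ll (v : H) : star (l b) (l b v) = v := by
  have h : ∀ v, ‖l b v‖ = ‖v‖ := fun v => (lI b).norm_map v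
  have h1 := (ContinuousLinearMap.norm_map_iff_adjoint_comp_self (l b)).mp h
  have h2 := congrArg (fun A : H →L[ℂ] H => A v) h1
  exact h2

theorem ls_succ (n : ℕ) : star (l b) (b (n + 1)) = b n := by
  rw [← l_b, ll]

theorem ls_zero : star (l b) (b 0) = 0 := by
  refine ext_b b fun n => ?_
  rw [inner_zero_right, ContinuousLinearMap.star_eq_adjoint,
    ContinuousLinearMap.adjoint_inner_right, l_b, on]
  simp

theorem inner_b0_l (v : H) : ⟪b 0, l b v⟫_ℂ = 0 := by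
  rw [← ContinuousLinearMap.adjoint_inner_left, ← ContinuousLinearMap.star_eq_adjoint, ls_zero,
    inner_zero_left]

/-- `S = l + l^*` -/
noncomputable def S : H →L[ℂ] H := l b + star (l b)

theorem S_sa : IsSelfAdjoint (S b) := IsSelfAdjoint.add_star_self _

theorem S_zero : S b (b 0) = b 1 := by
  change l b (b 0) + star (l b) (b 0) = _
  rw [l_b, ls_zero, add_zero]

theorem S_succ (n : ℕ) : S b (b (n + 1)) = b (n + 2) + b n := by
  change l b (b (n + 1)) + star (l b) (b (n + 1)) = _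
  rw [l_b, ls_succ]

theorem inner_S (v w : H) : ⟪v, S b w⟫_ℂ = ⟪S b v, w⟫_ℂ := by
  rw [← ContinuousLinearMap.adjoint_inner_left, ← ContinuousLinearMap.star_eq_adjoint,
    (S_sa b).star_eq]

theorem inner_S_pow (k : ℕ) (v w : H) : ⟪v, (S b ^ k) w⟫_ℂ = ⟪(S b ^ k) v, w⟫_ℂ := by
  rw [← ContinuousLinearMap.adjoint_inner_left, ← ContinuousLinearMap.star_eq_adjoint, star_pow,
    (S_sa b).star_eq]

theorem lls (v : H) : l b (star (l b) v) = v - ⟪b 0, v⟫_ℂ • b 0 := by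
  have h : l b * star (l b) = 1 - (innerSL ℂ (b 0)).smulRight (b 0) := by
    refine ext_op b fun n => ?_
    rw [mul_apply_eq_comp, sub_apply, one_apply_eq_self]
    change l b (star (l b) (b n)) = b n - ⟪b 0, b n⟫_ℂ • b 0
    cases n with
    | zero => rw [ls_zero, map_zero, on]; simp
    | succ n => rw [ls_succ, l_b, on]; simp
  have h2 := congrArg (fun A : H →L[ℂ] H => A v) h
  exact h2

/-- commutation relation -/
theorem S_l (v : H) : S b (l b v) = l b (S b v) + ⟪b 0, v⟫_ℂ • b 0 := by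
  change l b (l b v) + star (l b) (l b v) = l b (l b v + star (l b) v) + _
  rw [ll, map_add, lls]
  abel

theorem S_pow_l (k : ℕ) (v : H) : (S b ^ k) (l b v) = l b ((S b ^ k) v) +
    ∑ j ∈ Finset.range k, ⟪b 0, (S b ^ (k - 1 - j)) v⟫_ℂ • (S b ^ j) (b 0) := by
  induction k with
  | zero => simp
  | succ k ih =>
    rw [pow_succ', mul_apply_eq_comp, ih, map_add, S_l, map_sum, Finset.sum_range_succ',
      ← mul_apply_eq_comp (S b) (S b ^ k)]
    have h1 : ∀ j ∈ Finset.range k, S b (⟪b 0, (S b ^ (k - 1 - j)) v⟫_ℂ • (S b ^ j) (b 0)) =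
        ⟪b 0, (S b ^ (k + 1 - 1 - (j + 1))) v⟫_ℂ • (S b ^ (j + 1)) (b 0) := by
      intro j hj
      rw [map_smul, pow_succ' (S b) j, mul_apply_eq_comp]
      have : k + 1 - 1 - (j + 1) = k - 1 - j := by omega
      rw [this]
    rw [Finset.sum_congr rfl h1]
    simp only [Nat.add_sub_cancel, Nat.sub_zero, pow_zero, one_apply_eq_self]
    abel

/-- moments of `S` in the state of `b 0` -/
noncomputable def c (k : ℕ) : ℂ := ⟪b 0, (S b ^ k) (b 0)⟫_ℂ

theorem c_zero : c b 0 = 1 := by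
  unfold c
  rw [pow_zero, one_apply_eq_self, on]; simp

theorem c_succ (k : ℕ) : c b (k + 1) = ∑ j ∈ Finset.range k, c b j * c b (k - 1 - j) := by
  unfold c
  rw [pow_succ, mul_apply_eq_comp, S_zero, ← l_b b 0, S_pow_l, inner_add_right, inner_b0_l,
    zero_add, inner_sum]
  refine Finset.sum_congr rfl fun j _ => ?_
  rw [inner_smul_right, mul_comm]

theorem c_one : c b 1 = 0 := by
  have := c_succ b 0
  simpa using this

theorem c_two : c b 2 = 1 := by
  have := c_succ b 1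
  simpa [c_zero] using this

theorem c_three : c b 3 = 0 := by
  have := c_succ b 2
  simpa [c_zero, c_one, Finset.sum_range_succ] using this

theorem c_four : c b 4 = 2 := by
  have := c_succ b 3
  simp [c_zero, c_one, c_two, Finset.sum_range_succ] at this
  rw [this]; norm_num

/-- moments in the state of `b 1` -/
noncomputable def mc (k : ℕ) : ℂ := ⟪b 1, (S b ^ k) (b 1)⟫_ℂ

theorem mc_eq (k : ℕ) : mc b k = c b (k + 2) := by
  unfold mc c
  have e : (S b ^ (k + 2)) (b 0) = S b ((S b ^ k) (S b (b 0))) := by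
    rw [← mul_apply_eq_comp, ← mul_apply_eq_comp, ← pow_succ', ← pow_succ]
  rw [e, inner_S, S_zero]

theorem mc_rec (k : ℕ) : mc b (k + 3) = 2 * mc b (k + 1) +
    ∑ j ∈ Finset.range k, mc b j * mc b (k - 1 - j) := by
  rw [mc_eq, mc_eq, c_succ b (k + 4), Finset.sum_range_succ, Finset.sum_range_succ,
    Finset.sum_range_succ', Finset.sum_range_succ']
  have e1 : k + 4 - 1 - (k + 3) = 0 := by omega
  have e2 : k + 4 - 1 - (k + 2) = 1 := by omega
  have e3 : k + 4 - 1 - 0 = k + 3 := by omega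
  rw [e1, e2, e3, c_zero, zero_add, c_one]
  have h1 : ∀ j ∈ Finset.range k, c b (j + 1 + 1) * c b (k + 4 - 1 - (j + 1 + 1)) =
      mc b j * mc b (k - 1 - j) := by
    intro j hj
    rw [Finset.mem_range] at hj
    rw [mc_eq, mc_eq]
    congr 2
    omega
  rw [Finset.sum_congr rfl h1]
  ring

theorem mc_real (k : ℕ) : ((mc b k).re : ℂ) = mc b k := by
  have h : (starRingEnd ℂ) (mc b k) = mc b k := by
    unfold mc
    rw [inner_conj_symm, inner_S_pow]
  exact Complex.conj_eq_iff_re.mp h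

/-- real moments -/
noncomputable def mo (k : ℕ) : ℝ := (mc b k).re

theorem mo_zero : mo b 0 = 1 := by
  unfold mo; rw [mc_eq, c_two]; simp

theorem mo_one : mo b 1 = 0 := by
  unfold mo; rw [mc_eq, c_three]; simp

theorem mo_two : mo b 2 = 2 := by
  unfold mo; rw [mc_eq, c_four]; simp

theorem mo_rec (k : ℕ) : mo b (k + 3) = 2 * mo b (k + 1) +
    ∑ j ∈ Finset.range k, mo b j * mo b (k - 1 - j) := by
  have h := mc_rec b k
  have hr : ∀ k, mc b k = ((mo b k : ℝ) : ℂ) := fun k => (mc_real b k).symm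
  simp only [hr] at h
  exact_mod_cast h

theorem inner_S_pow_b1 (k : ℕ) : ⟪b 1, (S b ^ k) (b 1)⟫_ℂ = ((mo b k : ℝ) : ℂ) := (mc_real b k).symm

/-- a sequence in `ℓ²` with `a_{n+2} = - a_n` vanishes -/
theorem alt_zero (v : H) (h : ∀ n, ⟪b (n + 2), v⟫_ℂ + ⟪b n, v⟫_ℂ = 0) (n : ℕ) : ⟪b n, v⟫_ℂ = 0 := by
  have hs : Summable fun i => ‖⟪b i, v⟫_ℂ‖ ^ 2 := b.orthonormal.inner_products_summable v
  have hz := hs.tendsto_atTop_zero
  have hk : ∀ k : ℕ, ‖⟪b (n + 2 * k), v⟫_ℂ‖ = ‖⟪b n, v⟫_ℂ‖ := by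
    intro k
    induction k with
    | zero => rfl
    | succ k ih =>
      have h1 := h (n + 2 * k)
      have h2 : ⟪b (n + 2 * k + 2), v⟫_ℂ = -⟪b (n + 2 * k), v⟫_ℂ := eq_neg_of_add_eq_zero_left h1
      have e : n + 2 * (k + 1) = n + 2 * k + 2 := by ring
      rw [e, h2, norm_neg, ih]
  have ht : Tendsto (fun k : ℕ => n + 2 * k) atTop atTop :=
    tendsto_atTop_mono (fun k => by omega : ∀ k : ℕ, k ≤ n + 2 * k) tendsto_id
  have h3 := hz.comp ht
  have h4 : Tendsto (fun _ : ℕ => ‖⟪b n, v⟫_ℂ‖ ^ 2) atTop (𝓝 0) := by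
    refine h3.congr fun k => ?_
    simp only [Function.comp_apply]
    rw [hk]
  have h5 := tendsto_nhds_unique h4 tendsto_const_nhds
  have h6 : ‖⟪b n, v⟫_ℂ‖ = 0 := pow_eq_zero_iff (two_ne_zero) |>.mp h5.symm
  exact norm_eq_zero.mp h6

theorem S_coord (v : H) (n : ℕ) : ⟪b (n + 1), S b v⟫_ℂ = ⟪b (n + 2), v⟫_ℂ + ⟪b n, v⟫_ℂ := by
  rw [inner_S, S_succ, inner_add_left]

theorem S_inj (v : H) (h : S b v = 0) : v = 0 := by
  refine ext_b b fun n => ?_
  rw [inner_zero_right]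
  refine alt_zero b v (fun n => ?_) n
  rw [← S_coord, h, inner_zero_right]

theorem S_ran (v : H) : S b v ≠ b 0 := by
  intro h
  have h1 : ⟪b 1, v⟫_ℂ = 0 := by
    refine alt_zero b v (fun n => ?_) 1
    rw [← S_coord, h, on]; simp
  have h2 : ⟪b 0, S b v⟫_ℂ = ⟪b 1, v⟫_ℂ := by rw [inner_S, S_zero]
  rw [h, h1, on] at h2
  simp at h2

/-- `b 0` is cyclic -/
theorem cyc0 (w : H) (h : ∀ k, ⟪(S b ^ k) (b 0), w⟫_ℂ = 0) : w = 0 := by
  have key : ∀ n, (∀ k, ⟪(S b ^ k) (b n), w⟫_ℂ = 0) ∧ (∀ k, ⟪(S b ^ k) (b (n + 1)), w⟫_ℂ = 0) := by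
    intro n
    induction n with
    | zero =>
      refine ⟨h, fun k => ?_⟩
      have := h (k + 1)
      rw [pow_succ, mul_apply_eq_comp, S_zero] at this
      exact this
    | succ n ih =>
      refine ⟨ih.2, fun k => ?_⟩
      have h1 := ih.2 (k + 1)
      rw [pow_succ, mul_apply_eq_comp, S_succ, map_add, inner_add_left, ih.1 k, add_zero] at h1
      exact h1
  refine ext_b b fun n => ?_
  rw [inner_zero_right]
  have := (key n).1 0
  rw [pow_zero, one_apply_eq_self] at this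
  exact this

/-- the one-tuple -/
noncomputable def X1 : Fin 1 → H →L[ℂ] H := fun _ => S b

theorem tracial : IsTracialTuple (X1 b) (b 1) := by
  refine ⟨fun _ => S_sa b, b.orthonormal.1 1, ?_, ?_⟩
  · have h1 : (LinearMap.range (evV (X1 b) (b 1)))ᗮ = ⊥ := by
      rw [Submodule.eq_bot_iff]
      intro v hv
      rw [Submodule.mem_orthogonal] at hv
      have h2 : S b v = 0 := by
        refine cyc0 b _ fun k => ?_
        have h3 := hv (evV (X1 b) (b 1) (FreeAlgebra.ι ℂ 0 ^ k)) ⟨_, rfl⟩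
        rw [evV_apply, map_pow, ev_ι] at h3
        change ⟪(S b ^ k) (b 1), v⟫_ℂ = 0 at h3
        rw [inner_S, ← h3, ← mul_apply_eq_comp, ← pow_succ', pow_succ, mul_apply_eq_comp, S_zero]
      exact S_inj b v h2
    have h2 := Submodule.topologicalClosure_eq_top_iff.mpr h1
    rw [← Submodule.dense_iff_topologicalClosure_eq_top] at h2
    refine h2.mono ?_
    rintro _ ⟨P, rfl⟩
    exact ⟨ev (X1 b) P, ev_mem_W P, rfl⟩
  · intro a ha a' ha'
    rw [← mul_apply_eq_comp, ← mul_apply_eq_comp, W_comm ha ha']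

theorem inner_D1 (k : ℕ) : ∀ ξ : H, ⟪(ξ ⊗ₜ[ℂ] (b 1) : H ⊗[ℂ] H), D1 (X1 b) (b 1) 0 (X ^ k)⟫_ℂ =
    ∑ j ∈ Finset.range k, ⟪ξ, (S b ^ j) (b 1)⟫_ℂ * ((mo b (k - 1 - j) : ℝ) : ℂ) := by
  induction k with
  | zero => intro ξ; rw [pow_zero, D1_one]; simp
  | succ k ih =>
    intro ξ
    rw [pow_succ', D1_X_mul, inner_add_right, TensorProduct.inner_tmul, Finset.sum_range_succ']
    have h1 : ⟪(ξ ⊗ₜ[ℂ] (b 1) : H ⊗[ℂ] H), tm (X1 b 0) 1 (D1 (X1 b) (b 1) 0 (X ^ k))⟫_ℂ =
        ⟪((S b ξ) ⊗ₜ[ℂ] (b 1) : H ⊗[ℂ] H), D1 (X1 b) (b 1) 0 (X ^ k)⟫_ℂ := by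
      have := inner_tm (S b) 1 (ξ ⊗ₜ[ℂ] (b 1) : H ⊗[ℂ] H) (D1 (X1 b) (b 1) 0 (X ^ k))
      rw [(S_sa b).star_eq, star_one, tm_tmul, one_apply_eq_self] at this
      exact this.symm
    have h2 : ⟪b 1, (aeval (X1 b 0) (X ^ k : ℂ[X])) (b 1)⟫_ℂ = ((mo b k : ℝ) : ℂ) := by
      rw [map_pow, aeval_X]; exact inner_S_pow_b1 b k
    rw [h1, ih, h2]
    have h3 : ∀ j ∈ Finset.range k, ⟪S b ξ, (S b ^ j) (b 1)⟫_ℂ * ((mo b (k - 1 - j) : ℝ) : ℂ) =
        ⟪ξ, (S b ^ (j + 1)) (b 1)⟫_ℂ * ((mo b (k + 1 - 1 - (j + 1)) : ℝ) : ℂ) := by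
      intro j _
      rw [← inner_S, ← mul_apply_eq_comp, ← pow_succ']
      have : k + 1 - 1 - (j + 1) = k - 1 - j := by omega
      rw [this]
    rw [Finset.sum_congr rfl h3]
    simp only [Nat.add_sub_cancel, Nat.sub_zero, pow_zero, one_apply_eq_self]
    ring

/-- the conjugate variable is `P'(S) Ω`, `P' = x³ - 2 x` -/
theorem fisher : FiniteFisher (X1 b) (b 1) := by
  refine ⟨fun _ => (S b ^ 3) (b 1) - (2 : ℂ) • S b (b 1), fun i P => ?_⟩
  have hi : i = 0 := Subsingleton.elim _ _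
  subst hi
  obtain ⟨p, rfl⟩ := pf_surj P
  unfold dK
  rw [UniformSpace.Completion.inner_coe, ← D1_apply, evV_apply, ev_pf]
  induction p using Polynomial.induction_on' with
  | add p q hp hq => rw [map_add, map_add, add_apply, inner_add_right, inner_add_right, hp, hq]
  | monomial k a =>
    rw [← C_mul_X_pow_eq_monomial, ← smul_eq_C_mul, map_smul, map_smul, smul_apply,
      inner_smul_right]
    have e0 : ⟪((b 1) ⊗ₜ[ℂ] (b 1) : H ⊗[ℂ] H), a • D1 (X1 b) (b 1) 0 (X ^ k)⟫_ℂ =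
      a * ⟪((b 1) ⊗ₜ[ℂ] (b 1) : H ⊗[ℂ] H), D1 (X1 b) (b 1) 0 (X ^ k)⟫_ℂ :=
      inner_smul_right (𝕜 := ℂ) (E := H ⊗[ℂ] H) _ _ _
    rw [e0, inner_D1, map_pow, aeval_X]
    congr 1
    change ⟪(S b ^ 3) (b 1) - (2 : ℂ) • S b (b 1), (S b ^ k) (b 1)⟫_ℂ = _
    rw [inner_sub_left, inner_smul_left, ← inner_S_pow, ← inner_S, ← mul_apply_eq_comp,
      ← mul_apply_eq_comp, ← pow_add, ← pow_succ', add_comm 3 k, inner_S_pow_b1, inner_S_pow_b1,
      mo_rec]
    simp only [inner_S_pow_b1]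
    push_cast
    rw [map_ofNat]
    ring

end H203R3.Lim
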