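import Pool.Agent.H203R3.HC.Model
import Pool.Agent.H203R3.HC.Lim
import Pool.Agent.H203R3.MM.Conv

open scoped InnerProductSpace TensorProduct Topology Matrix Matrix.Norms.L2Operator
open Filter Polynomial MeasureTheory

set_option linter.unusedSectionVars false

namespace H203R3.Model

open H203R3.FD H203R3.MM

/-- the coordinates cover all Hermitian matrices -/
theorem herm_surj {n : ℕ} (M : Mat n) (hM : star M = M) : ∃ T : Co n, herm T = M := by
  have hM' : ∀ i j, M j i = (starRingEnd ℂ) (M i j) := by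
    intro i j
    have := congrFun (congrFun hM j) i
    rw [Matrix.star_apply] at this
    exact this.symm
  have h3 : ((Real.sqrt 2 : ℝ) : ℂ) ≠ 0 := by
    rw [Complex.ofReal_ne_zero]; positivity
  refine ⟨fun a => if a.1 = a.2 then (M a.1 a.1).re else if a.1 < a.2 then
    Real.sqrt 2 * (M a.1 a.2).re else Real.sqrt 2 * (M a.2 a.1).im, ?_⟩
  ext i j
  unfold herm
  rcases lt_trichotomy i j with h | h | h
  · have h1 : ¬ (i = j) := ne_of_lt h
    have h2 : ¬ (j = i) := ne_of_gt h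
    have h4 : ¬ (j < i) := not_lt.mpr h.le
    simp only [h1, h2, h, h4, if_true, if_false]
    push_cast
    field_simp
    rw [mul_comm Complex.I]
    exact Complex.re_add_im _
  · subst h
    simp only [if_true]
    have := hM' i i
    exact Complex.conj_eq_iff_re.mp this.symm
  · have h1 : ¬ (i = j) := ne_of_gt h
    have h2 : ¬ (j = i) := ne_of_lt h
    have h4 : ¬ (i < j) := not_lt.mpr h.le
    simp only [h1, h2, h, h4, if_true, if_false]
    push_cast
    field_simp
    rw [hM' j i, mul_comm Complex.I]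
    apply Complex.ext <;> simp

/-- the critical quartic potential `A⁴ / 4 - A²` -/
noncomputable def P0 : Poly 1 :=
  (1 / 4 : ℂ) • (FreeAlgebra.ι ℂ 0) ^ 4 - (FreeAlgebra.ι ℂ 0) ^ 2

variable {n : ℕ}

theorem evMat_ι (A : Fin 1 → Co n) : evMat A (FreeAlgebra.ι ℂ 0) = herm (A 0) := by
  simp [evMat]

theorem evMat_P0 (A : Fin 1 → Co n) :
    evMat A P0 = (1 / 4 : ℂ) • herm (A 0) ^ 4 - herm (A 0) ^ 2 := by
  unfold P0
  rw [map_sub, map_smul, map_pow, map_pow, evMat_ι]

theorem selfAdj_P0 : SelfAdj P0 := by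
  intro n A
  rw [evMat_P0, star_sub, star_smul, star_pow, star_pow, herm_star]
  congr 2
  simp

theorem dens_P0 (A : Fin 1 → Co n) : dens P0 A = w (A 0) := by
  unfold dens w Vp
  rw [evMat_P0]

theorem evMat_pf (A : Fin 1 → Co n) (p : ℂ[X]) : evMat A (pf 0 p) = aeval (herm (A 0)) p := by
  unfold pf
  rw [← Polynomial.aeval_algHom_apply, evMat_ι]

/-- complex valued `L²` convergence -/
def CvC (Y : ∀ n, Co n → ℂ) (y : ℂ) : Prop :=
  (∀ n, PB (Y n)) ∧ Tendsto (fun n => Ex (fun T : Co n => ‖Y n T - y‖ ^ 2)) atTop (𝓝 0)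

theorem CvC.pb {Y : ∀ n, Co n → ℂ} {y : ℂ} (h : CvC Y y) (n : ℕ) :
    PBR (fun T : Co n => ‖Y n T - y‖ ^ 2) := PBR.normsq ((h.1 n).sub (PB.const y))

theorem CvC.of_le {X : ∀ n, Co n → ℂ} {x : ℂ} (hX : ∀ n, PB (X n)) {u : ℕ → ℝ}
    (hu : Tendsto u atTop (𝓝 0)) (h : ∀ n, 0 < n → Ex (fun T : Co n => ‖X n T - x‖ ^ 2) ≤ u n) :
    CvC X x := by
  refine ⟨hX, squeeze_zero' ?_ ?_ hu⟩
  · filter_upwards [eventually_gt_atTop 0] with n hn
    exact Ex_nonneg hn fun T => sq_nonneg _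
  · filter_upwards [eventually_gt_atTop 0] with n hn
    exact h n hn

theorem CvC.add {X Y : ∀ n, Co n → ℂ} {x y : ℂ} (hX : CvC X x) (hY : CvC Y y) :
    CvC (fun n T => X n T + Y n T) (x + y) := by
  have hu := (hX.2.const_mul 2).add (hY.2.const_mul 2)
  rw [mul_zero, add_zero] at hu
  refine CvC.of_le (fun n => (hX.1 n).add (hY.1 n)) hu fun n hn => ?_
  rw [← Ex_const_mul, ← Ex_const_mul, ← Ex_add hn ((PBR.const 2).mul (hX.pb n))
    ((PBR.const 2).mul (hY.pb n))]
  refine Ex_mono hn (PBR.normsq (((hX.1 n).add (hY.1 n)).sub (PB.const _)))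
    (((PBR.const 2).mul (hX.pb n)).add ((PBR.const 2).mul (hY.pb n))) fun T => ?_
  have e : X n T + Y n T - (x + y) = (X n T - x) + (Y n T - y) := by ring
  rw [e]
  have h1 := norm_add_le (X n T - x) (Y n T - y)
  have h2 := norm_nonneg ((X n T - x) + (Y n T - y))
  nlinarith [sq_nonneg (‖X n T - x‖ - ‖Y n T - y‖)]

theorem CvC.const_mul {X : ∀ n, Co n → ℂ} {x : ℂ} (c : ℂ) (hX : CvC X x) :
    CvC (fun n T => c * X n T) (c * x) := by
  have hu := hX.2.const_mul (‖c‖ ^ 2)
  rw [mul_zero] at hu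
  refine CvC.of_le (fun n => (PB.const c).mul (hX.1 n)) hu fun n hn => ?_
  rw [← Ex_const_mul]
  refine le_of_eq ?_
  congr 1
  funext T
  rw [← mul_sub, norm_mul, mul_pow]

variable {H : Type*} [NormedAddCommGroup H] [InnerProductSpace ℂ H] [CompleteSpace H]
variable (b : HilbertBasis ℕ ℂ H)

theorem CvC.congr {X Y : ∀ n, Co n → ℂ} {x y : ℂ} (hX : CvC X x) (h : ∀ n T, X n T = Y n T)
    (hxy : x = y) : CvC Y y := by
  have : X = Y := by funext n T; exact h n T
  subst this hxy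
  exact hX

theorem conv_tau (k : ℕ) : CvC (fun n => tau k) ((Lim.mo b k : ℝ) : ℂ) := by
  have h := conv_all (Lim.mo_zero b) (Lim.mo_one b) (Lim.mo_two b) (Lim.mo_rec b) k
  refine ⟨fun n => PB.tau k, h.2.congr fun n => ?_⟩
  congr 1
  funext T
  change (t k T - Lim.mo b k) ^ 2 = ‖tau k T - ((Lim.mo b k : ℝ) : ℂ)‖ ^ 2
  rw [tau_eq, ← Complex.ofReal_sub, Complex.norm_real, Real.norm_eq_abs, sq_abs]

theorem conv_poly (p : ℂ[X]) :
    CvC (fun n T => (1 / n : ℂ) * (aeval (herm T) p : Mat n).trace)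
      ⟪b 1, aeval (Lim.S b) p (b 1)⟫_ℂ := by
  induction p using Polynomial.induction_on' with
  | add p q hp hq =>
    refine (hp.add hq).congr (fun n T => ?_) ?_
    · simp only [map_add, Matrix.trace_add, mul_add]
    · rw [map_add, add_apply, inner_add_right]
  | monomial k a =>
    refine ((conv_tau b k).const_mul a).congr (fun n T => ?_) ?_
    · rw [← C_mul_X_pow_eq_monomial, ← smul_eq_C_mul]
      simp only [map_smul, map_pow, aeval_X, Matrix.trace_smul, smul_eq_mul]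
      unfold tau
      ring
    · rw [← C_mul_X_pow_eq_monomial, ← smul_eq_C_mul, map_smul, smul_apply, inner_smul_right,
        map_pow, aeval_X, Lim.inner_S_pow_b1]

theorem mp (n : ℕ) : MeasurePreserving (MeasurableEquiv.funUnique (Fin 1) (Co n))
    (volume : Measure (Fin 1 → Co n)) volume := volume_preserving_funUnique (Fin 1) (Co n)

theorem converges : Converges P0 (Lim.X1 b) (b 1) := by
  have hI : ∀ n : ℕ, ∀ f : Co n → ℝ, Integrable f →
      Integrable (fun A : Fin 1 → Co n => f (A 0)) := by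
    intro n f hf
    exact (mp n).integrable_comp_of_integrable hf
  have hE : ∀ n : ℕ, ∀ f : Co n → ℝ, ∫ A : Fin 1 → Co n, f (A 0) = ∫ T : Co n, f T := by
    intro n f
    exact (mp n).integral_comp' f
  refine ⟨fun n hn => ?_, fun n hn Q => ?_, fun Q => ?_⟩
  · simp only [dens_P0]
    exact hI n _ (w_integrable hn)
  · obtain ⟨p, rfl⟩ := pf_surj Q
    simp only [dens_P0, ntr, evMat_pf, ev_pf]
    exact hI n (fun T => ‖(1 / n : ℂ) * (aeval (herm T) p : Mat n).trace -
      ⟪b 1, aeval (Lim.S b) p (b 1)⟫_ℂ‖ ^ 2 * w T) (((conv_poly b p).pb n).integrable hn)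
  · obtain ⟨p, rfl⟩ := pf_surj Q
    refine (conv_poly b p).2.congr fun n => ?_
    simp only [dens_P0, ntr, evMat_pf, ev_pf]
    have h1 := hE n (fun T => w T)
    have h2 := hE n (fun T => ‖(1 / n : ℂ) * (aeval (herm T) p : Mat n).trace -
      ⟪b 1, aeval (Lim.S b) p (b 1)⟫_ℂ‖ ^ 2 * w T)
    unfold Ex Zn
    rw [← h1, ← h2]
    rfl

theorem S_pow_coord (k : ℕ) : (∀ n, k < n → ⟪b n, (Lim.S b ^ k) (b 0)⟫_ℂ = 0) ∧
    ⟪b k, (Lim.S b ^ k) (b 0)⟫_ℂ = 1 := by
  induction k with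
  | zero =>
    refine ⟨fun n hn => ?_, ?_⟩
    · rw [pow_zero, one_apply_eq_self, Lim.on]; simp; omega
    · rw [pow_zero, one_apply_eq_self, Lim.on]; simp
  | succ k ih =>
    refine ⟨fun n hn => ?_, ?_⟩
    · obtain ⟨j, rfl⟩ : ∃ j, n = j + 1 := ⟨n - 1, by omega⟩
      rw [pow_succ', mul_apply_eq_comp, Lim.S_coord, ih.1 (j + 2) (by omega),
        ih.1 j (by omega), add_zero]
    · rw [pow_succ', mul_apply_eq_comp, Lim.S_coord, ih.1 (k + 2) (by omega), ih.2, zero_add]

theorem no_relation (Q : Poly 1) (hQ : ev (Lim.X1 b) Q = 0) : Q = 0 := by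
  obtain ⟨p, rfl⟩ := pf_surj Q
  rw [ev_pf] at hQ
  change aeval (Lim.S b) p = 0 at hQ
  have hp : p = 0 := by
    have h1 : ⟪b p.natDegree, aeval (Lim.S b) p (b 0)⟫_ℂ = p.leadingCoeff := by
      rw [aeval_eq_sum_range, sum_apply, inner_sum, Finset.sum_range_succ,
        Finset.sum_eq_zero, zero_add, smul_apply, inner_smul_right, (S_pow_coord b _).2, mul_one]
      · rfl
      · intro i hi
        rw [Finset.mem_range] at hi
        rw [smul_apply, inner_smul_right, (S_pow_coord b i).1 _ hi, mul_zero]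
    rw [hQ] at h1
    simp only [zero_apply, inner_zero_right] at h1
    exact leadingCoeff_eq_zero.mp h1.symm
  rw [hp]
  simp [pf]

end H203R3.Model
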