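import Pool.Agent.H203R3.FD.Defs
import Pool.Agent.H203R3.MM.Herm

/-! Definitions: the matrix model with potential `P` and its convergence. -/

open scoped InnerProductSpace Topology
open Filter MeasureTheory

namespace H203R3.Model

open H203R3.FD H203R3.MM

/-- Evaluation of a noncommutative polynomial at the Hermitian matrices with coordinates `A i`. -/
noncomputable def evMat {m n : ℕ} (A : Fin m → Co n) : Poly m →ₐ[ℂ] Mat n :=
  FreeAlgebra.lift ℂ (fun i => herm (A i))

/-- `P` is self-adjoint: `P(A)` is Hermitian for all tuples `A` of Hermitian matrices of every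
size. -/
def SelfAdj {m : ℕ} (P : Poly m) : Prop :=
  ∀ (n : ℕ) (A : Fin m → Co n), star (evMat A P) = evMat A P

/-- The unnormalised density `exp(- n Tr P(A))` of the matrix model on `H_n^m`. -/
noncomputable def dens {m n : ℕ} (P : Poly m) (A : Fin m → Co n) : ℝ :=
  Real.exp (-(n : ℝ) * ((evMat A P).trace).re)

/-- The normalised trace of `Q(A)`. -/
noncomputable def ntr {m n : ℕ} (Q : Poly m) (A : Fin m → Co n) : ℂ :=
  (1 / n : ℂ) * (evMat A Q).trace

variable {H : Type*} [NormedAddCommGroup H] [InnerProductSpace ℂ H] [CompleteSpace H]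

/-- The matrix model with potential `P` is well defined and converges to the state of the tuple
`x` in the vector `Ω`: under the law proportional to `exp(- n Tr P(A))` the normalised trace of
`Q(A)` converges in `L²` to `⟨Ω, Q(x) Ω⟩`, for every noncommutative polynomial `Q`. -/
structure Converges {m : ℕ} (P : Poly m) (x : Fin m → H →L[ℂ] H) (Ω : H) : Prop where
  integrable : ∀ n : ℕ, 0 < n → Integrable (fun A : Fin m → Co n => dens P A)
  sq_integrable : ∀ n : ℕ, 0 < n → ∀ Q : Poly m,
    Integrable (fun A : Fin m → Co n => ‖ntr Q A - ⟪Ω, ev x Q Ω⟫_ℂ‖ ^ 2 * dens P A)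
  tendsto : ∀ Q : Poly m, Tendsto (fun n : ℕ =>
    (∫ A : Fin m → Co n, ‖ntr Q A - ⟪Ω, ev x Q Ω⟫_ℂ‖ ^ 2 * dens P A) /
      ∫ A : Fin m → Co n, dens P A) atTop (𝓝 0)

end H203R3.Model
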