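import Pool.Agent.H203R3.HC.Adj

open scoped InnerProductSpace TensorProduct Topology
open Filter Polynomial

set_option linter.unusedSectionVars false

namespace H203R3.FD

variable {H : Type*} [NormedAddCommGroup H] [InnerProductSpace ℂ H] [CompleteSpace H]

/-- lower bound for a symmetric semigroup in terms of the energy -/
theorem semi_lower {φ : ℝ → H →L[ℂ] H} (hadd : ∀ s, 0 ≤ s → ∀ t, 0 ≤ t → φ (s + t) = φ s * φ t)
    (hsa : ∀ t, 0 ≤ t → IsSelfAdjoint (φ t)) {h g : H} (hh : ‖h‖ = 1)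
    (hg : Tendsto (fun t : ℝ => (t⁻¹ : ℂ) • (h - φ t h)) (𝓝[>] 0) (𝓝 g)) {κ : ℝ}
    (hκ : (⟪g, h⟫_ℂ).re < κ) {s : ℝ} (hs : 0 < s) :
    Real.exp (-κ * s) ≤ (⟪φ s h, h⟫_ℂ).re := by
  set u : ℝ → ℝ := fun t => (⟪φ t h, h⟫_ℂ).re with hu
  have hdbl : ∀ t, 0 ≤ t → u t ^ 2 ≤ u (2 * t) := by
    intro t ht
    have e1 : u (2 * t) = ‖φ t h‖ ^ 2 := by
      rw [hu]
      simp only
      rw [two_mul, hadd t ht t ht, mul_apply_eq_comp, ← ContinuousLinearMap.adjoint_inner_right,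
        ← ContinuousLinearMap.star_eq_adjoint, (hsa t ht).star_eq, reS]
    have e2 : |u t| ≤ ‖φ t h‖ := by
      refine (Complex.abs_re_le_norm _).trans ((norm_inner_le_norm _ _).trans ?_)
      rw [hh, mul_one]
    rw [e1, ← sq_abs]
    exact pow_le_pow_left₀ (abs_nonneg _) e2 2
  have hpow : ∀ k : ℕ, u (s / 2 ^ k) ^ (2 ^ k) ≤ u s := by
    intro k
    induction k with
    | zero => simp
    | succ k ih =>
      have h1 := hdbl (s / 2 ^ (k + 1)) (by positivity)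
      have e1 : 2 * (s / 2 ^ (k + 1)) = s / 2 ^ k := by rw [pow_succ]; field_simp
      rw [e1] at h1
      have e2 : u (s / 2 ^ (k + 1)) ^ (2 ^ (k + 1)) = (u (s / 2 ^ (k + 1)) ^ 2) ^ (2 ^ k) := by
        rw [← pow_mul, ← pow_succ']
      rw [e2]
      exact (pow_le_pow_left₀ (sq_nonneg _) h1 _).trans ih
  have h0 : (⟪h, h⟫_ℂ).re = 1 := by rw [reS, hh]; norm_num
  have hlim : Tendsto (fun t : ℝ => t⁻¹ * (1 - u t)) (𝓝[>] 0) (𝓝 (⟪g, h⟫_ℂ).re) := by
    have h1 : Tendsto (fun t : ℝ => (⟪(t⁻¹ : ℂ) • (h - φ t h), h⟫_ℂ).re) (𝓝[>] 0)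
        (𝓝 (⟪g, h⟫_ℂ).re) :=
      (Complex.continuous_re.tendsto _).comp (Filter.Tendsto.inner hg tendsto_const_nhds)
    refine h1.congr fun t => ?_
    rw [inner_smul_left, ← Complex.ofReal_inv, Complex.conj_ofReal, Complex.re_ofReal_mul,
      inner_sub_left, Complex.sub_re, h0]
  have hev := hlim.eventually_lt_const hκ
  have hseq : Tendsto (fun k : ℕ => s / 2 ^ k) atTop (𝓝[>] 0) := by
    refine tendsto_nhdsWithin_iff.mpr ⟨?_, Eventually.of_forall fun k => ?_⟩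
    · have h1 : Tendsto (fun k : ℕ => s * (1 / 2 : ℝ) ^ k) atTop (𝓝 (s * 0)) :=
        (tendsto_pow_atTop_nhds_zero_of_lt_one (by norm_num) (by norm_num)).const_mul s
      rw [mul_zero] at h1
      refine h1.congr fun k => ?_
      rw [one_div, inv_pow]; rfl
    · exact div_pos hs (by positivity)
  have hev2 := hseq.eventually hev
  have h2k : Tendsto (fun k : ℕ => 2 ^ k) atTop (atTop : Filter ℕ) :=
    tendsto_pow_atTop_atTop_of_one_lt (by norm_num)
  have hexp : Tendsto (fun k : ℕ => (1 + (-κ * s) / ((2 ^ k : ℕ) : ℝ)) ^ (2 ^ k)) atTop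
      (𝓝 (Real.exp (-κ * s))) := (Real.tendsto_one_add_div_pow_exp (-κ * s)).comp h2k
  have hone : Tendsto (fun k : ℕ => 1 + (-κ * s) / ((2 ^ k : ℕ) : ℝ)) atTop (𝓝 1) := by
    have h1 : Tendsto (fun N : ℕ => (-κ * s) / (N : ℝ)) atTop (𝓝 0) :=
      tendsto_const_div_atTop_nhds_zero_nat _
    have h2 := (h1.comp h2k).const_add 1
    rw [add_zero] at h2
    exact h2
  have hev3 := hone.eventually_const_lt (show (0 : ℝ) < 1 by norm_num)
  refine le_of_tendsto hexp ?_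
  filter_upwards [hev2, hev3] with k h1 h2
  refine le_trans (pow_le_pow_left₀ h2.le ?_ _) (hpow k)
  have hp : 0 < s / 2 ^ k := by positivity
  rw [inv_mul_lt_iff₀ hp] at h1
  have e1 : (-κ * s) / ((2 ^ k : ℕ) : ℝ) = -(s / 2 ^ k * κ) := by push_cast; ring
  rw [e1]
  linarith

/-- bounded families have weak limits along ultrafilters -/
theorem weak_lim {ι : Type*} (U : Ultrafilter ι) (u : ι → H) (C : ℝ)
    (hb : ∀ᶠ i in (U : Filter ι), ‖u i‖ ≤ C) :
    ∃ y : H, ∀ v, Tendsto (fun i => ⟪u i, v⟫_ℂ) U (𝓝 ⟪y, v⟫_ℂ) := by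
  have hbd : ∀ v, ∀ᶠ i in (U : Filter ι), ‖⟪u i, v⟫_ℂ‖ ≤ C * ‖v‖ := by
    intro v
    filter_upwards [hb] with i hi
    exact (norm_inner_le_norm _ _).trans (by gcongr)
  have hex : ∀ v, ∃ L : ℂ, Tendsto (fun i => ⟪u i, v⟫_ℂ) U (𝓝 L) := by
    intro v
    have hc : IsCompact (Metric.closedBall (0 : ℂ) (C * ‖v‖)) := isCompact_closedBall _ _
    obtain ⟨L, _, hL⟩ := hc.ultrafilter_le_nhds (U.map fun i => ⟪u i, v⟫_ℂ) (by
      rw [Ultrafilter.coe_map, le_principal_iff, mem_map]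
      filter_upwards [hbd v] with i hi
      simp only [Set.mem_preimage, Metric.mem_closedBall, dist_zero_right]
      exact hi)
    exact ⟨L, hL⟩
  choose L hL using hex
  let F : H →ₗ[ℂ] ℂ :=
    { toFun := L
      map_add' := fun v w => by
        have h1 := (hL v).add (hL w)
        simp only [← inner_add_right] at h1
        exact tendsto_nhds_unique (hL (v + w)) h1
      map_smul' := fun c v => by
        have h1 := (hL v).const_mul c
        simp only [← inner_smul_right] at h1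
        exact tendsto_nhds_unique (hL (c • v)) h1 }
  have hF : ∀ v, ‖F v‖ ≤ C * ‖v‖ := fun v => le_of_tendsto (hL v).norm (hbd v)
  refine ⟨(InnerProductSpace.toDual ℂ H).symm (F.mkContinuous C hF), fun v => ?_⟩
  rw [InnerProductSpace.toDual_symm_apply]
  exact hL v

variable {x : Fin 1 → H →L[ℂ] H} {Ω e0 : H} {R : H →L[ℂ] H} {ε : ℝ}

theorem RS.mul_X {X : H →L[ℂ] H} (h : RS X ε R) : X * R = 1 + (Complex.I * ε) • R := by
  have := h.inv'
  rw [sub_mul, smul_mul_assoc, one_mul] at this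
  rw [← this]; abel

theorem RS.X_mul {X : H →L[ℂ] H} (h : RS X ε R) : R * X = 1 + (Complex.I * ε) • R := by
  have := h.inv
  rw [mul_sub, mul_smul_comm, mul_one] at this
  rw [← this]; abel

theorem RS.norm_Ie {X : H →L[ℂ] H} (h : RS X ε R) (hX : IsSelfAdjoint X) (v : H) :
    ‖(Complex.I * ε : ℂ) • R v‖ ≤ ‖v‖ := by
  rw [norm_smul, norm_mul, Complex.norm_I, one_mul, Complex.norm_real, Real.norm_eq_abs]
  calc |ε| * ‖R v‖ ≤ |ε| * (‖R‖ * ‖v‖) := by gcongr; exact R.le_opNorm v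
    _ = (|ε| * ‖R‖) * ‖v‖ := by ring
    _ ≤ 1 * ‖v‖ := by gcongr; exact h.norm_le hX
    _ = ‖v‖ := one_mul _

theorem RS.norm_Ω {X : H →L[ℂ] H} (h : RS X ε R) (hX : IsSelfAdjoint X) (hΩ : X e0 = Ω)
    (he : ‖e0‖ = 1) : ‖R Ω‖ ≤ 2 := by
  have e1 : R Ω = e0 + (Complex.I * ε) • R e0 := by
    rw [← hΩ, ← mul_apply_eq_comp, h.X_mul]; rfl
  rw [e1]
  refine (norm_add_le _ _).trans ?_
  have := h.norm_Ie hX e0
  rw [he] at this ⊢
  linarith

theorem RS.XRR {X : H →L[ℂ] H} (h : RS X ε R) : X * (R * R) = R + (Complex.I * ε) • (R * R) := by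
  rw [← mul_assoc, h.mul_X, add_mul, one_mul, smul_mul_assoc]

theorem RS.XXRR {X : H →L[ℂ] H} (h : RS X ε R) : X * (X * (R * R)) =
    1 + (2 * (Complex.I * ε)) • R + (Complex.I * ε) ^ 2 • (R * R) := by
  rw [h.XRR, mul_add, mul_smul_comm, h.XRR, h.mul_X, smul_add, smul_smul]
  module

theorem RS.norm_XRR {X : H →L[ℂ] H} (h : RS X ε R) (hX : IsSelfAdjoint X) (hΩ : X e0 = Ω)
    (he : ‖e0‖ = 1) : ‖X ((R * R) Ω)‖ ≤ 4 := by
  have e1 : X ((R * R) Ω) = R Ω + (Complex.I * ε) • R (R Ω) := by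
    rw [← mul_apply_eq_comp, h.XRR]; rfl
  rw [e1]
  refine (norm_add_le _ _).trans ?_
  have h1 := h.norm_Ie hX (R Ω)
  have h2 := h.norm_Ω hX hΩ he
  linarith

/-- the test vectors stay bounded against polynomials -/
theorem weak_bound (hT : IsTracialTuple x Ω) (hΩ : x 0 e0 = Ω) (he : ‖e0‖ = 1) (q : ℂ[X]) :
    ∃ C : ℝ, ∀ (ε : ℝ) (R : H →L[ℂ] H), RS (x 0) ε R →
      ‖⟪(R * R) Ω, aeval (x 0) q Ω⟫_ℂ‖ ≤ C := by
  have hX := hT.selfAdjoint 0
  induction q using Polynomial.induction_on' with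
  | add p q hp hq =>
    obtain ⟨C, hC⟩ := hp
    obtain ⟨D, hD⟩ := hq
    refine ⟨C + D, fun ε R h => ?_⟩
    rw [map_add, add_apply, inner_add_right]
    exact (norm_add_le _ _).trans (add_le_add (hC ε R h) (hD ε R h))
  | monomial n a =>
    cases n with
    | zero =>
      refine ⟨‖a‖ * 4, fun ε R h => ?_⟩
      have e1 : aeval (x 0) (monomial 0 a) Ω = a • Ω := by
        rw [aeval_monomial, pow_zero, mul_one, Algebra.algebraMap_eq_smul_one]; rfl
      rw [e1, inner_smul_right, norm_mul, mul_apply_eq_comp,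
        ← ContinuousLinearMap.adjoint_inner_right, ← ContinuousLinearMap.star_eq_adjoint]
      have h1 := h.norm_Ω hX hΩ he
      have h2 := (h.adj hX).norm_Ω hX hΩ he
      have h3 : ‖⟪R Ω, star R Ω⟫_ℂ‖ ≤ 2 * 2 :=
        (norm_inner_le_norm _ _).trans (mul_le_mul h1 h2 (norm_nonneg _) (by norm_num))
      nlinarith [norm_nonneg a]
    | succ n =>
      refine ⟨‖a‖ * (4 * ‖aeval (x 0) (X ^ n : ℂ[X]) Ω‖), fun ε R h => ?_⟩
      have e1 : aeval (x 0) (monomial (n + 1) a) Ω = a • x 0 (aeval (x 0) (X ^ n : ℂ[X]) Ω) := by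
        rw [aeval_monomial, Algebra.algebraMap_eq_smul_one, smul_mul_assoc, one_mul, pow_succ',
          smul_apply, mul_apply_eq_comp, map_pow, aeval_X]
      rw [e1, inner_smul_right, norm_mul, ← ContinuousLinearMap.adjoint_inner_left,
        ← ContinuousLinearMap.star_eq_adjoint, hX.star_eq]
      gcongr
      refine (norm_inner_le_norm _ _).trans ?_
      gcongr
      exact h.norm_XRR hX hΩ he

/-- the test vectors blow up -/
theorem blow_up (hT : IsTracialTuple x Ω) (hΩ : x 0 e0 = Ω) (he : ‖e0‖ = 1)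
    (hinj : ∀ v, x 0 v = 0 → v = 0) (hran : ∀ v, x 0 v ≠ e0)
    (R : ℕ → H →L[ℂ] H) (hR : ∀ j : ℕ, RS (x 0) (1 / ((j : ℝ) + 1)) (R j)) :
    Tendsto (fun j => ‖(R j * R j) Ω‖) atTop atTop := by
  have hX := hT.selfAdjoint 0
  by_contra hcon
  rw [tendsto_atTop] at hcon
  push Not at hcon
  obtain ⟨C, hC⟩ := hcon
  have hne : NeBot ((atTop : Filter ℕ) ⊓ 𝓟 {j | ¬ C ≤ ‖(R j * R j) Ω‖}) :=
    frequently_mem_iff_neBot.mp (by
      refine hC.mono fun j hj => ?_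
      simpa using hj)
  obtain ⟨U, hU⟩ := Ultrafilter.exists_le ((atTop : Filter ℕ) ⊓ 𝓟 {j | ¬ C ≤ ‖(R j * R j) Ω‖})
  have hU1 : (U : Filter ℕ) ≤ atTop := hU.trans inf_le_left
  have hU2 : ∀ᶠ j in (U : Filter ℕ), ‖(R j * R j) Ω‖ ≤ C := by
    have h1 : {j | ¬ C ≤ ‖(R j * R j) Ω‖} ∈ (U : Filter ℕ) :=
      (hU.trans inf_le_right) (mem_principal_self _)
    filter_upwards [h1] with j hj
    exact (not_le.mp hj).le
  obtain ⟨y, hy⟩ := weak_lim U (fun j => (R j * R j) Ω) C hU2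
  have heps : Tendsto (fun j : ℕ => 1 / ((j : ℝ) + 1)) U (𝓝 0) :=
    (tendsto_one_div_add_atTop_nhds_zero_nat (𝕜 := ℝ)).mono_left hU1
  have hXX : x 0 (x 0 y) = Ω := by
    refine ext_inner_right ℂ fun v => ?_
    have h1 := hy (x 0 (x 0 v))
    have e1 : ⟪y, x 0 (x 0 v)⟫_ℂ = ⟪x 0 (x 0 y), v⟫_ℂ := by
      have a1 : ∀ a b : H, ⟪a, x 0 b⟫_ℂ = ⟪x 0 a, b⟫_ℂ := by
        intro a b
        rw [← ContinuousLinearMap.adjoint_inner_left, ← ContinuousLinearMap.star_eq_adjoint,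
          hX.star_eq]
      rw [a1, a1]
    have e2 : ∀ j, ⟪(R j * R j) Ω, x 0 (x 0 v)⟫_ℂ = ⟪x 0 (x 0 ((R j * R j) Ω)), v⟫_ℂ := by
      intro j
      have a1 : ∀ a b : H, ⟪a, x 0 b⟫_ℂ = ⟪x 0 a, b⟫_ℂ := by
        intro a b
        rw [← ContinuousLinearMap.adjoint_inner_left, ← ContinuousLinearMap.star_eq_adjoint,
          hX.star_eq]
      rw [a1, a1]
    rw [e1] at h1
    simp only [e2] at h1
    refine tendsto_nhds_unique h1 ?_
    have hlim : Tendsto (fun j => x 0 (x 0 ((R j * R j) Ω))) U (𝓝 Ω) := by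
      rw [tendsto_iff_norm_sub_tendsto_zero]
      have hb : Tendsto (fun j : ℕ => 4 * (1 / ((j : ℝ) + 1)) + (1 / ((j : ℝ) + 1)) ^ 2 * C) U
          (𝓝 0) := by
        have := (heps.const_mul 4).add ((heps.pow 2).mul_const C)
        simpa using this
      refine squeeze_zero' (Eventually.of_forall fun _ => norm_nonneg _) ?_ hb
      filter_upwards [hU2] with j hj
      have e3 : x 0 (x 0 ((R j * R j) Ω)) - Ω =
          (2 * (Complex.I * ((1 / ((j : ℝ) + 1) : ℝ) : ℂ))) • (R j Ω) +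
          (Complex.I * ((1 / ((j : ℝ) + 1) : ℝ) : ℂ)) ^ 2 • ((R j * R j) Ω) := by
        have e4 : x 0 (x 0 ((R j * R j) Ω)) = (x 0 * (x 0 * (R j * R j))) Ω := rfl
        rw [e4, (hR j).XXRR]
        simp only [add_apply, smul_apply, one_apply_eq_self]
        abel
      rw [e3]
      have hε : (0 : ℝ) < 1 / ((j : ℝ) + 1) := by positivity
      have hn : ‖(Complex.I * ((1 / ((j : ℝ) + 1) : ℝ) : ℂ))‖ = 1 / ((j : ℝ) + 1) := by
        rw [norm_mul, Complex.norm_I, one_mul, Complex.norm_real, Real.norm_eq_abs, abs_of_pos hε]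
      refine (norm_add_le _ _).trans ?_
      rw [norm_smul, norm_smul, norm_mul, norm_pow, hn, Complex.norm_ofNat]
      have h4 := (hR j).norm_Ω hX hΩ he
      nlinarith [norm_nonneg (R j Ω), sq_nonneg (1 / ((j : ℝ) + 1))]
    exact hlim.inner tendsto_const_nhds
  have h2 : x 0 (x 0 y - e0) = 0 := by rw [map_sub, hXX, hΩ, sub_self]
  have h3 := hinj _ h2
  exact hran y (sub_eq_zero.mp h3)

/-- main abstract theorem: the heat semigroup is not compact -/
theorem not_compact (hT : IsTracialTuple x Ω) (hF : FiniteFisher x Ω) (hΩ : x 0 e0 = Ω)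
    (he : ‖e0‖ = 1) (hinj : ∀ v, x 0 v = 0 → v = 0) (hran : ∀ v, x 0 v ≠ e0)
    {φ : ℝ → H →L[ℂ] H} (hφ : IsHeatSemigroup x Ω φ) {s : ℝ} (hs : 0 < s) :
    ¬ IsCompactOperator (φ s) := by
  intro hcomp
  have hX := hT.selfAdjoint 0
  obtain ⟨J, hJ0⟩ := hF
  have hJ : ∀ p : ℂ[X], ⟪J 0, aeval (x 0) p Ω⟫_ℂ = ⟪(Ω ⊗ₜ[ℂ] Ω : H ⊗[ℂ] H), D1 x Ω 0 p⟫_ℂ := by
    intro p
    have := fisher_alg (hJ0 0) (pf 0 p)
    rw [ev_pf, ← D1_apply] at this
    exact this
  have hexR : ∀ j : ℕ, ∃ R, RS (x 0) (1 / ((j : ℝ) + 1)) R := fun j => RS.exists hX (by positivity)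
  choose R hR using hexR
  have hblow := blow_up hT hΩ he hinj hran R hR
  set u : ℕ → H := fun j => (R j * R j) Ω with hu
  have hevpos : ∀ᶠ j in (atTop : Filter ℕ), 0 < ‖u j‖ := hblow.eventually_gt_atTop 0
  set v : ℕ → H := fun j => ((‖u j‖⁻¹ : ℝ) : ℂ) • u j with hv
  have hvn : ∀ j, 0 < ‖u j‖ → ‖v j‖ = 1 := by
    intro j hj
    rw [hv]
    simp only
    rw [norm_smul, Complex.norm_real, norm_inv, norm_norm, inv_mul_cancel₀ hj.ne']
  have hvle : ∀ j, ‖v j‖ ≤ 1 := by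
    intro j
    rcases (norm_nonneg (u j)).eq_or_lt with h0 | h0
    · rw [hv]
      simp only
      rw [norm_smul, ← h0, mul_zero]; exact zero_le_one
    · exact (hvn j h0).le
  -- lower bound
  have hlow : ∀ j, 0 < ‖u j‖ → Real.exp (-17 * s) ≤ (⟪φ s (v j), v j⟫_ℂ).re := by
    intro j hj
    obtain ⟨k, hk1, hk2⟩ := (hR j).lap hT hJ
    have hgen := hφ.generator _ _ hk1
    refine semi_lower hφ.add hφ.selfAdjoint (hvn j hj) (g := ((‖u j‖⁻¹ : ℝ) : ℂ) • k) ?_ ?_ hs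
    · have h1 := hgen.const_smul ((‖u j‖⁻¹ : ℝ) : ℂ)
      refine h1.congr fun t => ?_
      rw [hv]
      simp only
      rw [map_smul, ← smul_sub, smul_comm]
    · have e1 : (⟪((‖u j‖⁻¹ : ℝ) : ℂ) • k, v j⟫_ℂ).re = ‖u j‖⁻¹ ^ 2 * ‖zh Ω (R j)‖ ^ 2 := by
        rw [hv]
        simp only
        rw [inner_smul_left, inner_smul_right, Complex.conj_ofReal, ← mul_assoc,
          ← Complex.ofReal_mul, Complex.re_ofReal_mul, hk2]
        ring
      rw [e1]
      have h2 := norm_zh (Ω := Ω) (R j)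
      have h3 := (hR j).norm_Ω hX hΩ he
      have h4 : ‖zh Ω (R j)‖ ≤ 4 * ‖u j‖ := by
        refine h2.trans ?_
        have : (0 : ℝ) ≤ ‖(R j * R j) Ω‖ := norm_nonneg _
        change 2 * ‖R j Ω‖ * ‖(R j * R j) Ω‖ ≤ 4 * ‖(R j * R j) Ω‖
        nlinarith
      have h5 : ‖zh Ω (R j)‖ ^ 2 ≤ (4 * ‖u j‖) ^ 2 := pow_le_pow_left₀ (norm_nonneg _) h4 2
      calc ‖u j‖⁻¹ ^ 2 * ‖zh Ω (R j)‖ ^ 2 ≤ ‖u j‖⁻¹ ^ 2 * (4 * ‖u j‖) ^ 2 := by gcongr
        _ = 16 := by field_simp; norm_num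
        _ < 17 := by norm_num
  -- ultrafilter limits
  obtain ⟨U, hU⟩ := Ultrafilter.exists_le (atTop : Filter ℕ)
  obtain ⟨y, hy⟩ := weak_lim U v 1 (Eventually.of_forall hvle)
  have hy0 : y = 0 := by
    have h1 : ∀ q : ℂ[X], ⟪y, aeval (x 0) q Ω⟫_ℂ = 0 := by
      intro q
      refine tendsto_nhds_unique (hy (aeval (x 0) q Ω)) ?_
      obtain ⟨C, hC⟩ := weak_bound hT hΩ he q
      have hinv : Tendsto (fun j => ‖u j‖⁻¹ * C) U (𝓝 0) := by
        have := (hblow.inv_tendsto_atTop.mul_const C).mono_left hU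
        rw [zero_mul] at this
        exact this
      rw [tendsto_zero_iff_norm_tendsto_zero]
      refine squeeze_zero (fun _ => norm_nonneg _) (fun j => ?_) hinv
      rw [hv]
      simp only
      rw [inner_smul_left, norm_mul, RCLike.norm_conj, Complex.norm_real, norm_inv, norm_norm]
      gcongr
      exact hC _ _ (hR j)
    have h3 : y ∈ (LinearMap.range (evV x Ω)).topologicalClosureᗮ := by
      rw [Submodule.orthogonal_closure, Submodule.mem_orthogonal']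
      rintro _ ⟨Q, rfl⟩
      obtain ⟨q, rfl⟩ := pf_surj Q
      rw [evV_apply, ev_pf]
      exact h1 q
    rw [poly_dense hT, Submodule.top_orthogonal_eq_bot] at h3
    exact (Submodule.mem_bot ℂ).mp h3
  subst hy0
  obtain ⟨K, hK, hKs⟩ := IsCompactOperator.image_closedBall_subset_compact
    (f := (φ s : H →ₛₗ[RingHom.id ℂ] H)) hcomp 1
  obtain ⟨z, _, hz⟩ := hK.ultrafilter_le_nhds (U.map fun j => φ s (v j)) (by
    rw [Ultrafilter.coe_map, le_principal_iff, mem_map]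
    refine Filter.univ_mem' fun j => ?_
    exact hKs ⟨v j, by simpa using hvle j, rfl⟩)
  have hz' : Tendsto (fun j => φ s (v j)) U (𝓝 z) := hz
  have hz0 : z = 0 := by
    refine ext_inner_right ℂ fun w => ?_
    rw [inner_zero_left]
    have h1 : Tendsto (fun j => ⟪φ s (v j), w⟫_ℂ) U (𝓝 ⟪z, w⟫_ℂ) := hz'.inner tendsto_const_nhds
    have h2 := hy (φ s w)
    rw [inner_zero_left] at h2
    refine tendsto_nhds_unique h1 (h2.congr fun j => ?_)
    rw [← ContinuousLinearMap.adjoint_inner_left, ← ContinuousLinearMap.star_eq_adjoint,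
      (hφ.selfAdjoint s hs.le).star_eq]
  subst hz0
  have hn := hz'.norm
  rw [norm_zero] at hn
  have hlt := hn.eventually_lt_const (Real.exp_pos (-17 * s))
  obtain ⟨j, hj1, hj2⟩ := (hlt.and (hevpos.filter_mono hU)).exists
  have h5 := hlow j hj2
  have h6 : (⟪φ s (v j), v j⟫_ℂ).re ≤ ‖φ s (v j)‖ := by
    refine (Complex.re_le_norm _).trans ((norm_inner_le_norm _ _).trans ?_)
    rw [hvn j hj2, mul_one]
  linarith

end H203R3.FD
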