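import Pool.Agent.H203R3.FD.Heat

open scoped InnerProductSpace TensorProduct Topology
open Filter Polynomial

set_option linter.unusedSectionVars false

namespace H203R3.FD

variable {H : Type*} [NormedAddCommGroup H] [InnerProductSpace ℂ H] [CompleteSpace H]
variable {m : ℕ} {x : Fin m → H →L[ℂ] H} {Ω : H} {i₀ : Fin m}

theorem Cl_iff {f : H →L[ℂ] H} {η : H ⊗[ℂ] H} : Cl x Ω i₀ f η ↔
    (f, η) ∈ closure (Set.range fun p : ℂ[X] => (aeval (x i₀) p, D1 x Ω i₀ p)) := by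
  rw [mem_closure_iff_seq_limit]
  constructor
  · rintro ⟨p, h1, h2⟩
    exact ⟨fun n => (aeval (x i₀) (p n), D1 x Ω i₀ (p n)), fun n => ⟨p n, rfl⟩,
      h1.prodMk_nhds h2⟩
  · rintro ⟨s, hs, hlim⟩
    choose p hp using hs
    refine ⟨p, ?_, ?_⟩
    · have := (continuous_fst.tendsto _).comp hlim
      refine this.congr fun n => ?_
      rw [Function.comp_apply, ← hp]
    · have := (continuous_snd.tendsto _).comp hlim
      refine this.congr fun n => ?_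
      rw [Function.comp_apply, ← hp]

theorem Cl.closed {f : ℕ → H →L[ℂ] H} {η : ℕ → H ⊗[ℂ] H} {f₀ : H →L[ℂ] H} {η₀ : H ⊗[ℂ] H}
    (h : ∀ n, Cl x Ω i₀ (f n) (η n)) (hf : Tendsto f atTop (𝓝 f₀)) (hη : Tendsto η atTop (𝓝 η₀)) :
    Cl x Ω i₀ f₀ η₀ := by
  rw [Cl_iff]
  exact isClosed_closure.mem_of_tendsto (hf.prodMk_nhds hη)
    (Eventually.of_forall fun n => Cl_iff.mp (h n))

theorem Cl.zero : Cl x Ω i₀ 0 0 := by
  have := (Cl.one (x := x) (Ω := Ω) (i₀ := i₀)).smul 0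
  simpa using this

/-- derivative of the powers -/
noncomputable def zf (f : H →L[ℂ] H) (ζ : H ⊗[ℂ] H) : ℕ → H ⊗[ℂ] H
  | 0 => 0
  | n + 1 => tm 1 (f ^ n) ζ + tm f 1 (zf f ζ n)

/-- geometric sums -/
noncomputable def Pf (f : H →L[ℂ] H) : ℕ → (H →L[ℂ] H)
  | 0 => 0
  | n + 1 => Pf f n + f ^ n

/-- derivative of the geometric sums -/
noncomputable def ef (f : H →L[ℂ] H) (ζ : H ⊗[ℂ] H) : ℕ → H ⊗[ℂ] H
  | 0 => 0
  | n + 1 => ef f ζ n + zf f ζ n

theorem Cl.zf {f : H →L[ℂ] H} {ζ : H ⊗[ℂ] H} (hf : Cl x Ω i₀ f ζ) (n : ℕ) :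
    Cl x Ω i₀ (f ^ n) (zf f ζ n) := by
  induction n with
  | zero => exact Cl.one
  | succ n ih =>
    have := hf.mul ih
    rw [← pow_succ'] at this
    exact this

theorem Cl.ef {f : H →L[ℂ] H} {ζ : H ⊗[ℂ] H} (hf : Cl x Ω i₀ f ζ) (n : ℕ) :
    Cl x Ω i₀ (Pf f n) (ef f ζ n) := by
  induction n with
  | zero => exact Cl.zero
  | succ n ih => exact ih.add (hf.zf n)

theorem norm_pow_le1 {f : H →L[ℂ] H} {ρ : ℝ} (hρ : ‖f‖ ≤ ρ) (n : ℕ) : ‖f ^ n‖ ≤ ρ ^ n := by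
  rcases Nat.eq_zero_or_pos n with h0 | h0
  · subst h0
    simp only [pow_zero]
    exact ContinuousLinearMap.norm_id_le
  · exact (norm_pow_le' _ h0).trans (by gcongr)

theorem norm_zf {f : H →L[ℂ] H} (ζ : H ⊗[ℂ] H) {ρ : ℝ} (hρ0 : 0 < ρ) (hρ : ‖f‖ ≤ ρ) (n : ℕ) :
    ρ * ‖zf f ζ n‖ ≤ n * ρ ^ n * ‖ζ‖ := by
  induction n with
  | zero => simp [H203R3.FD.zf]
  | succ n ih =>
    have e : zf f ζ (n + 1) = tm 1 (f ^ n) ζ + tm f 1 (zf f ζ n) := rfl
    rw [e]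
    have h1 : ‖tm 1 (f ^ n) ζ‖ ≤ ρ ^ n * ‖ζ‖ :=
      (norm_tm_right_le _ _).trans (by gcongr; exact norm_pow_le1 hρ n)
    have h2 : ‖tm f 1 (zf f ζ n)‖ ≤ ρ * ‖zf f ζ n‖ := (norm_tm_left_le _ _).trans (by gcongr)
    have h3 := norm_add_le (tm 1 (f ^ n) ζ) (tm f 1 (zf f ζ n))
    push_cast
    calc ρ * ‖tm 1 (f ^ n) ζ + tm f 1 (zf f ζ n)‖ ≤ ρ * (ρ ^ n * ‖ζ‖ + n * ρ ^ n * ‖ζ‖) := by
          gcongr; linarith
      _ = _ := by ring

theorem Pf_mul (f : H →L[ℂ] H) (n : ℕ) : (1 - f) * Pf f n = 1 - f ^ n := by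
  induction n with
  | zero => simp [Pf]
  | succ n ih =>
    have e : Pf f (n + 1) = Pf f n + f ^ n := rfl
    rw [e, mul_add, ih, sub_mul, one_mul, pow_succ']
    abel

theorem ef_mul (f : H →L[ℂ] H) (ζ : H ⊗[ℂ] H) (n : ℕ) :
    tm (1 - f) 1 (ef f ζ n) = tm 1 (Pf f n) ζ - zf f ζ n := by
  induction n with
  | zero =>
    have e1 : ef f ζ 0 = 0 := rfl
    have e2 : Pf f 0 = 0 := rfl
    have e3 : zf f ζ 0 = 0 := rfl
    rw [e1, e2, e3, map_zero, sub_zero, ← zero_smul ℂ (1 : H →L[ℂ] H), tm_smul_right, zero_smul]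
  | succ n ih =>
    have e1 : ef f ζ (n + 1) = ef f ζ n + zf f ζ n := rfl
    have e2 : Pf f (n + 1) = Pf f n + f ^ n := rfl
    have e3 : zf f ζ (n + 1) = tm 1 (f ^ n) ζ + tm f 1 (zf f ζ n) := rfl
    rw [e1, e2, e3, map_add, ih, tm_add_right, tm_sub_left 1 f 1 (zf f ζ n), tm_one_one]
    abel

/-- Neumann series: derivative of the inverse -/
theorem Cl.neumann {f g : H →L[ℂ] H} {ζ : H ⊗[ℂ] H} (hf : Cl x Ω i₀ f ζ) {ρ : ℝ} (hρ0 : 0 < ρ)
    (hρ1 : ρ < 1) (hρ : ‖f‖ ≤ ρ) (hg : g * (1 - f) = 1) : Cl x Ω i₀ g (tm g g ζ) := by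
  have hpow : Tendsto (fun n => f ^ n) atTop (𝓝 0) := by
    rw [tendsto_zero_iff_norm_tendsto_zero]
    exact squeeze_zero (fun _ => norm_nonneg _) (norm_pow_le1 hρ)
      (tendsto_pow_atTop_nhds_zero_of_lt_one hρ0.le hρ1)
  have hP : Tendsto (Pf f) atTop (𝓝 g) := by
    have e : ∀ n, Pf f n = g - g * f ^ n := by
      intro n
      calc Pf f n = (g * (1 - f)) * Pf f n := by rw [hg, one_mul]
        _ = g * ((1 - f) * Pf f n) := by rw [mul_assoc]
        _ = _ := by rw [Pf_mul, mul_sub, mul_one]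
    have h1 := (tendsto_const_nhds (x := g)).sub (hpow.const_mul g)
    rw [mul_zero, sub_zero] at h1
    exact h1.congr fun n => (e n).symm
  have hz : Tendsto (H203R3.FD.zf f ζ) atTop (𝓝 0) := by
    rw [tendsto_zero_iff_norm_tendsto_zero]
    have h1 := (tendsto_self_mul_const_pow_of_lt_one hρ0.le hρ1).const_mul (‖ζ‖ / ρ)
    rw [mul_zero] at h1
    refine squeeze_zero (fun _ => norm_nonneg _) (fun n => ?_) h1
    have h2 := norm_zf ζ hρ0 hρ n
    rw [div_mul_eq_mul_div, le_div_iff₀ hρ0]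
    linarith
  refine Cl.closed (f := Pf f) (η := H203R3.FD.ef f ζ) (fun n => hf.ef n) hP ?_
  have e : ∀ n, H203R3.FD.ef f ζ n = tm g 1 (tm 1 (Pf f n) ζ) - tm g 1 (H203R3.FD.zf f ζ n) := by
    intro n
    rw [← map_sub, ← ef_mul, ← tm_mul, hg, one_mul, tm_one_one]
  have h1 : Tendsto (fun n => tm g 1 (tm 1 (Pf f n) ζ)) atTop (𝓝 (tm g 1 (tm 1 g ζ))) :=
    tendsto_tm_left tendsto_const_nhds (tendsto_tm_right hP tendsto_const_nhds)
  have h2 : Tendsto (fun n => tm g 1 (H203R3.FD.zf f ζ n)) atTop (𝓝 (tm g 1 0)) :=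
    tendsto_tm_left tendsto_const_nhds hz
  rw [map_zero] at h2
  have h3 := h1.sub h2
  rw [sub_zero, ← tm_mul, mul_one, one_mul] at h3
  exact h3.congr fun n => (e n).symm

/-- resolvent data -/
structure RS (X : H →L[ℂ] H) (l : ℝ) (R : H →L[ℂ] H) : Prop where
  ne : l ≠ 0
  inv : R * (X - (Complex.I * l) • 1) = 1
  inv' : (X - (Complex.I * l) • 1) * R = 1

theorem RS.exists {X : H →L[ℂ] H} (hX : IsSelfAdjoint X) {l : ℝ} (hl : l ≠ 0) : ∃ R, RS X l R := by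
  have h0 : IsUnit (X - (Complex.I * l : ℂ) • (1 : H →L[ℂ] H)) := by
    have h1 : (Complex.I * l : ℂ) ∉ spectrum ℂ X := by
      intro hmem
      have := hX.mem_spectrum_eq_re hmem
      have h2 := congrArg Complex.im this
      simp at h2
      exact hl h2
    have h2 : IsUnit (algebraMap ℂ (H →L[ℂ] H) (Complex.I * l) - X) := by
      by_contra hcon
      exact h1 (spectrum.mem_iff.mpr hcon)
    rw [Algebra.algebraMap_eq_smul_one] at h2
    have h3 := h2.neg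
    rwa [neg_sub] at h3
  obtain ⟨u, hu⟩ := h0
  refine ⟨(u⁻¹ : (H →L[ℂ] H)ˣ), hl, ?_, ?_⟩
  · rw [← hu]; simp
  · rw [← hu]; simp

variable {X R R' : H →L[ℂ] H} {l ε : ℝ}

theorem RS.adj (h : RS X l R) (hX : IsSelfAdjoint X) : RS X (-l) (star R) := by
  have e : star (X - (Complex.I * l : ℂ) • (1 : H →L[ℂ] H)) =
      X - (Complex.I * ((-l : ℝ) : ℂ)) • (1 : H →L[ℂ] H) := by
    rw [star_sub, star_smul, star_one, hX.star_eq]
    congr 2
    simp
  refine ⟨neg_ne_zero.mpr h.ne, ?_, ?_⟩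
  · rw [← e, ← star_mul, h.inv', star_one]
  · rw [← e, ← star_mul, h.inv, star_one]

theorem RS.res (h : RS X l R) (hX : IsSelfAdjoint X) :
    R - star R = (2 * Complex.I * l) • (star R * R) := by
  have h2 := (h.adj hX)
  have e1 : star R * (X - (Complex.I * ((-l : ℝ) : ℂ)) • (1 : H →L[ℂ] H)) * R = R := by
    rw [h2.inv, one_mul]
  have e2 : star R * ((X - (Complex.I * l : ℂ) • (1 : H →L[ℂ] H)) * R) = star R := by
    rw [h.inv', mul_one]
  calc R - star R = star R * (X - (Complex.I * ((-l : ℝ) : ℂ)) • (1 : H →L[ℂ] H)) * R -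
        star R * ((X - (Complex.I * l : ℂ) • (1 : H →L[ℂ] H)) * R) := by rw [e1, e2]
    _ = (2 * Complex.I * l) • (star R * R) := by
      rw [mul_assoc, ← mul_sub, ← sub_mul]
      have : (X - (Complex.I * ((-l : ℝ) : ℂ)) • (1 : H →L[ℂ] H) -
        (X - (Complex.I * l : ℂ) • (1 : H →L[ℂ] H))) = (2 * Complex.I * l) • 1 := by
        rw [sub_sub_sub_cancel_left, ← sub_smul]
        congr 1
        push_cast; ring
      rw [this, smul_mul_assoc, one_mul, mul_smul_comm]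

theorem RS.norm_le (h : RS X l R) (hX : IsSelfAdjoint X) : |l| * ‖R‖ ≤ 1 := by
  have h1 := h.res hX
  have h2 : ‖star R * R‖ = ‖R‖ * ‖R‖ := CStarRing.norm_star_mul_self
  have h3 : ‖(2 * Complex.I * l : ℂ)‖ = 2 * |l| := by simp
  have h4 : ‖R - star R‖ ≤ 2 * ‖R‖ := by
    refine (norm_sub_le _ _).trans ?_
    rw [norm_star]; linarith
  rw [h1, norm_smul, h3, h2] at h4
  by_contra hcon
  rw [not_le] at hcon
  have hRp : 0 < ‖R‖ := by
    by_contra h0
    have : ‖R‖ = 0 := le_antisymm (not_lt.mp h0) (norm_nonneg _)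
    rw [this, mul_zero] at hcon; linarith
  nlinarith

theorem RS.sub (h : RS X l R) (h' : RS X ε R') :
    R - R' = (Complex.I * l - Complex.I * ε) • (R * R') := by
  have e1 : R * ((X - (Complex.I * ε : ℂ) • (1 : H →L[ℂ] H)) * R') = R := by
    rw [h'.inv', mul_one]
  have e2 : (R * (X - (Complex.I * l : ℂ) • (1 : H →L[ℂ] H))) * R' = R' := by
    rw [h.inv, one_mul]
  calc R - R' = R * ((X - (Complex.I * ε : ℂ) • (1 : H →L[ℂ] H)) * R') -
        (R * (X - (Complex.I * l : ℂ) • (1 : H →L[ℂ] H))) * R' := by rw [e1, e2]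
    _ = _ := by
      rw [mul_assoc, ← mul_sub, ← sub_mul]
      have : (X - (Complex.I * ε : ℂ) • (1 : H →L[ℂ] H) -
        (X - (Complex.I * l : ℂ) • (1 : H →L[ℂ] H))) = (Complex.I * l - Complex.I * ε) • 1 := by
        rw [sub_sub_sub_cancel_left, ← sub_smul]
      rw [this, smul_mul_assoc, one_mul, mul_smul_comm]

/-- All resolvents at nonzero imaginary points are in the closure. -/
theorem RS.cl (hT : IsTracialTuple x Ω) {R : H →L[ℂ] H} {ε : ℝ} (h : RS (x i₀) ε R) :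
    Cl x Ω i₀ R (-((R Ω) ⊗ₜ (R Ω))) := by
  have hX := hT.selfAdjoint i₀
  have hε : 0 < |ε| := abs_pos.mpr h.ne
  set t : ℝ := 1 + (‖x i₀‖ + 1) / |ε| with ht
  have ht1 : 1 < t := by rw [ht]; have : 0 < (‖x i₀‖ + 1) / |ε| := by positivity
                         linarith
  set l : ℝ := ε * t with hl
  have habs : |l| = |ε| + ‖x i₀‖ + 1 := by
    rw [hl, abs_mul, abs_of_pos (by linarith : 0 < t), ht]
    field_simp
    ring
  have hl0 : l ≠ 0 := by
    intro h0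
    rw [h0, abs_zero] at habs
    have := norm_nonneg (x i₀)
    linarith
  obtain ⟨R', hR'⟩ := RS.exists hX hl0
  have hclR : Cl x Ω i₀ R' (-((R' Ω) ⊗ₜ (R' Ω))) := by
    refine Cl.res hT.norm_one (z := Complex.I * l) ?_ hR'.inv
    rw [norm_mul, Complex.norm_I, one_mul, Complex.norm_real, Real.norm_eq_abs, habs]
    linarith
  set c : ℂ := Complex.I * ε - Complex.I * l with hc
  have id1 : R - R' = c • (R * R') := h.sub hR'
  have id2 : R - R' = c • (R' * R) := by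
    have := hR'.sub h
    have e : (Complex.I * l - Complex.I * ε : ℂ) = -c := by rw [hc]; ring
    rw [e, neg_smul] at this
    rw [← neg_sub, this, neg_neg]
  have hcl : ‖c‖ = |l| - |ε| := by
    have e : c = ((ε - l : ℝ) : ℂ) * Complex.I := by rw [hc]; push_cast; ring
    rw [e, norm_mul, Complex.norm_I, mul_one, Complex.norm_real, Real.norm_eq_abs, hl]
    have e2 : ε - ε * t = ε * (1 - t) := by ring
    rw [e2, abs_mul ε (1 - t), abs_mul ε t, abs_of_pos (show 0 < t by linarith),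
      abs_of_neg (show 1 - t < 0 by linarith)]
    ring
  have hlpos : 0 < |l| := abs_pos.mpr hl0
  have hρ : ‖c • R'‖ ≤ (|l| - |ε|) / |l| := by
    rw [norm_smul, hcl, div_eq_mul_inv]
    have h1 : ‖R'‖ ≤ |l|⁻¹ := by
      rw [inv_eq_one_div, le_div_iff₀ hlpos]
      have := hR'.norm_le hX
      linarith
    have h2 : 0 ≤ |l| - |ε| := by rw [habs]; have := norm_nonneg (x i₀); linarith
    gcongr
  have hg : (1 + c • R) * (1 - c • R') = 1 := by
    rw [mul_sub, add_mul, add_mul, one_mul, one_mul, mul_one, smul_mul_smul_comm, ← smul_smul,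
      ← id1, smul_sub]
    abel
  have hN := (hclR.smul c).neumann (ρ := (|l| - |ε|) / |l|)
    (by
      have h2 : 0 < |l| - |ε| := by rw [habs]; have := norm_nonneg (x i₀); linarith
      positivity)
    (by rw [div_lt_one hlpos]; linarith) hρ hg
  have hfin := hclR.mul hN
  have e1 : R' * (1 + c • R) = R := by
    rw [mul_add, mul_one, mul_smul_comm, ← id2]; abel
  have e2 : (1 + c • R) * R' = R := by
    rw [add_mul, one_mul, smul_mul_assoc, ← id1]; abel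
  have e2' : (1 + c • R) (R' Ω) = R Ω := by rw [← mul_apply_eq_comp, e2]
  rw [e1] at hfin
  refine (iff_of_eq (congrArg (Cl x Ω i₀ R) ?_)).mp hfin
  rw [map_neg, tm_tmul, map_smul, map_neg, tm_tmul, map_smul, map_neg, tm_tmul, e2',
    one_apply_eq_self, one_apply_eq_self, ← mul_apply_eq_comp R' R]
  have e3 : R Ω = R' Ω + c • (R' * R) Ω := by
    rw [← smul_apply, ← id2]; simp
  have e4 : ((R Ω) ⊗ₜ[ℂ] (R Ω) : H ⊗[ℂ] H) = (R' Ω) ⊗ₜ (R Ω) + c • (((R' * R) Ω) ⊗ₜ (R Ω)) := by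
    have : ∀ v, R Ω = v → ((R Ω) ⊗ₜ[ℂ] (R Ω) : H ⊗[ℂ] H) = v ⊗ₜ (R Ω) := by rintro v rfl; rfl
    rw [this _ e3, TensorProduct.add_tmul, ← TensorProduct.smul_tmul']
  rw [e4, smul_neg]
  abel

end H203R3.FD
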